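import Mathlib

set_option autoImplicit false

/-!
# The number of separated values near a set of small length
-/

namespace Pool.Agent.K4H62.CN

/-- separated numbers in an interval -/
theorem card_sep {F : Finset ℕ} (hF : F.Nonempty) {y : ℝ} (hy : 0 < y)
    (hsp : ∀ v ∈ F, ∀ w ∈ F, v < w → y ≤ (w : ℝ) - v) :
    ((F.card : ℝ) - 1) * y ≤ (F.max' hF : ℝ) - F.min' hF := by
  classical
  obtain ⟨m, hm⟩ : ∃ m, m = F.min' hF := ⟨_, rfl⟩
  obtain ⟨M, hM⟩ : ∃ M, M = F.max' hF := ⟨_, rfl⟩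
  rw [← hm, ← hM]
  have hmM : (m : ℝ) ≤ M := by
    have := F.min'_le_max' hF
    rw [hm, hM]
    exact_mod_cast this
  have h1 : Set.InjOn (fun v : ℕ => ⌊((v : ℝ) - m) / y⌋₊) (F : Set ℕ) := by
    have key : ∀ v ∈ F, ∀ w ∈ F, v < w → ⌊((v : ℝ) - m) / y⌋₊ < ⌊((w : ℝ) - m) / y⌋₊ := by
      intro v hv w hw hvw
      have h2 := hsp v hv w hw hvw
      have h3 : (m : ℝ) ≤ v := by
        rw [hm]; exact_mod_cast F.min'_le v hv
      have h4 : ((v : ℝ) - m) / y + 1 ≤ ((w : ℝ) - m) / y := by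
        rw [← sub_nonneg]
        have e1 : ((w : ℝ) - m) / y - (((v : ℝ) - m) / y + 1) = ((w : ℝ) - v - y) / y := by
          field_simp
          ring
        rw [e1]
        exact div_nonneg (by linarith) hy.le
      have h5 : 0 ≤ ((v : ℝ) - m) / y := div_nonneg (by linarith) hy.le
      have h6 := Nat.floor_le h5
      rw [← Nat.succ_le_iff]
      refine Nat.le_floor ?_
      push_cast
      linarith
    intro v hv w hw hvw
    rcases lt_trichotomy v w with h | h | h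
    · exact absurd hvw (key v hv w hw h).ne
    · exact h
    · exact absurd hvw.symm (key w hw v hv h).ne
  have h2 : F.card ≤ ⌊((M : ℝ) - m) / y⌋₊ + 1 := by
    rw [← Finset.card_image_of_injOn h1]
    refine le_trans (Finset.card_le_card (t := Finset.range (⌊((M : ℝ) - m) / y⌋₊ + 1)) ?_)
      (by simp)
    intro b hb
    obtain ⟨v, hv, rfl⟩ := Finset.mem_image.1 hb
    rw [Finset.mem_range, Nat.lt_succ_iff]
    refine Nat.floor_le_floor ?_
    have h3 : (v : ℝ) ≤ M := by rw [hM]; exact_mod_cast F.le_max' v hv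
    gcongr
  have h3 : ((F.card : ℝ) - 1) ≤ ((M : ℝ) - m) / y := by
    have h4 : (F.card : ℝ) ≤ (⌊((M : ℝ) - m) / y⌋₊ : ℝ) + 1 := by exact_mod_cast h2
    have h5 := Nat.floor_le (a := ((M : ℝ) - m) / y) (div_nonneg (by linarith) hy.le)
    linarith
  rwa [le_div_iff₀ hy] at h3

/-- The number of the different nonzero values of `u` if `u` is close to `t x`, the numbers `x i` are
zero or in `r` intervals, and different values of `u` are separated. -/
theorem count {s r : ℕ} {u : Fin s → ℕ} {x : Fin s → ℝ} {t y : ℝ} (ht : 0 ≤ t) (hy : 0 < y)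
    {a b : Fin r → ℝ} (hab : ∀ j, a j ≤ b j) (hx : ∀ i, x i = 0 ∨ ∃ j, a j ≤ x i ∧ x i ≤ b j)
    (hdev : ∑ i, ((u i : ℝ) - t * x i) ^ 2 ≤ y ^ 2)
    (hsp : ∀ i j, u i < u j → y ≤ (u j : ℝ) - u i) :
    ∃ N : ℕ, ((Finset.univ.image u).erase 0).card ≤ r + 1 + N ∧
      (N : ℝ) * y ≤ t * ∑ j, (b j - a j) + √(2 * (N : ℝ)) * y := by
  classical
  obtain ⟨A, hA⟩ : ∃ A, A = (Finset.univ.image u).erase 0 := ⟨_, rfl⟩
  rw [← hA]
  have hAm : ∀ v ∈ A, v ≠ 0 ∧ ∃ i, u i = v := by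
    intro v hv
    rw [hA, Finset.mem_erase, Finset.mem_image] at hv
    obtain ⟨h1, i, -, h2⟩ := hv
    exact ⟨h1, i, h2⟩
  rcases Nat.eq_zero_or_pos s with hs | hs
  · subst hs
    have : A = ∅ := by
      rw [hA]; ext v; simp
    refine ⟨0, by rw [this]; simp, ?_⟩
    have h1 : 0 ≤ t * ∑ j, (b j - a j) :=
      mul_nonneg ht (Finset.sum_nonneg fun j _ => sub_nonneg.2 (hab j))
    simpa using h1
  let i0 : Fin s := ⟨0, hs⟩
  obtain ⟨ii, hii⟩ : ∃ ii : ℕ → Fin s, ∀ v ∈ A, u (ii v) = v := by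
    refine ⟨fun v => if h : ∃ i, u i = v then h.choose else i0, fun v hv => ?_⟩
    have h := (hAm v hv).2
    simp only [dif_pos h]
    exact h.choose_spec
  have hinj : Set.InjOn ii (A : Set ℕ) := by
    intro v hv w hw h
    rw [← hii v hv, ← hii w hw, h]
  obtain ⟨d, hd⟩ : ∃ d : ℕ → ℝ, d = fun v => (u (ii v) : ℝ) - t * x (ii v) := ⟨_, rfl⟩
  have hdA : ∑ v ∈ A, d v ^ 2 ≤ y ^ 2 := by
    refine le_trans ?_ hdev
    have h1 : ∑ v ∈ A, d v ^ 2 = ∑ i ∈ A.image ii, ((u i : ℝ) - t * x i) ^ 2 := by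
      rw [Finset.sum_image hinj, hd]
    rw [h1]
    exact Finset.sum_le_sum_of_subset_of_nonneg (Finset.subset_univ _) fun i _ _ => sq_nonneg _
  have hd1 : ∀ v ∈ A, |d v| ≤ y := by
    intro v hv
    have h1 : d v ^ 2 ≤ y ^ 2 :=
      le_trans (Finset.single_le_sum (f := fun v => d v ^ 2) (fun i _ => sq_nonneg _) hv) hdA
    exact abs_le_of_sq_le_sq h1 hy.le
  have hspA : ∀ v ∈ A, ∀ w ∈ A, v < w → y ≤ (w : ℝ) - v := by
    intro v hv w hw h
    have h1 := hsp (ii v) (ii w) (by rw [hii v hv, hii w hw]; exact h)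
    rwa [hii v hv, hii w hw] at h1
  -- the two parts
  obtain ⟨A0, hA0⟩ : ∃ A0, A0 = A.filter fun v => x (ii v) = 0 := ⟨_, rfl⟩
  obtain ⟨A1, hA1⟩ : ∃ A1, A1 = A.filter fun v => ¬ x (ii v) = 0 := ⟨_, rfl⟩
  have hcard : A.card = A0.card + A1.card := by
    rw [hA0, hA1]
    exact (Finset.card_filter_add_card_filter_not (s := A) (fun v => x (ii v) = 0)).symm
  have hA0c : A0.card ≤ 1 := by
    rw [Finset.card_le_one]
    have key : ∀ v ∈ A0, ∀ w ∈ A0, ¬ v < w := by
      intro v hv w hw h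
      rw [hA0, Finset.mem_filter] at hv hw
      have h1 := hspA v hv.1 w hw.1 h
      have h2 := hd1 w hw.1
      rw [hd] at h2
      simp only at h2
      rw [hw.2, mul_zero, sub_zero, hii w hw.1] at h2
      have h3 := le_abs_self (w : ℝ)
      have h4 : (1 : ℝ) ≤ v := by
        exact_mod_cast Nat.one_le_iff_ne_zero.2 (hAm v hv.1).1
      linarith
    intro v hv w hw
    rcases lt_trichotomy v w with h | h | h
    · exact absurd h (key v hv w hw)
    · exact h
    · exact absurd h (key w hw v hv)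
  -- intervals
  rcases Nat.eq_zero_or_pos r with hr | hr
  · subst hr
    have h1 : A1 = ∅ := by
      rw [hA1, Finset.filter_eq_empty_iff]
      intro v hv h
      rcases hx (ii v) with h2 | ⟨j, -⟩
      · exact h h2
      · exact j.elim0
    refine ⟨0, by rw [hcard, h1]; simpa using hA0c, ?_⟩
    simp
  let j0 : Fin r := ⟨0, hr⟩
  obtain ⟨jj, hjj⟩ : ∃ jj : ℕ → Fin r, ∀ v ∈ A1, a (jj v) ≤ x (ii v) ∧ x (ii v) ≤ b (jj v) := by
    refine ⟨fun v => if h : ∃ j, a j ≤ x (ii v) ∧ x (ii v) ≤ b j then h.choose else j0,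
      fun v hv => ?_⟩
    rw [hA1, Finset.mem_filter] at hv
    have h : ∃ j, a j ≤ x (ii v) ∧ x (ii v) ≤ b j := (hx (ii v)).resolve_left hv.2
    simp only [dif_pos h]
    exact h.choose_spec
  have hA1A : ∀ v ∈ A1, v ∈ A := fun v hv => by
    rw [hA1, Finset.mem_filter] at hv
    exact hv.1
  obtain ⟨F, hF⟩ : ∃ F : Fin r → Finset ℕ, F = fun j => A1.filter fun v => jj v = j := ⟨_, rfl⟩
  have hFm : ∀ j, ∀ v ∈ F j, v ∈ A1 ∧ jj v = j := fun j v hv => by
    rw [hF] at hv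
    exact Finset.mem_filter.1 hv
  have hFcard : A1.card = ∑ j, (F j).card := by
    rw [hF]
    exact Finset.card_eq_sum_card_fiberwise (f := jj) (t := Finset.univ)
      (fun _ _ => Finset.mem_coe.2 (Finset.mem_univ _))
  obtain ⟨J, hJ⟩ : ∃ J : Finset (Fin r), J = Finset.univ.filter fun j => 2 ≤ (F j).card :=
    ⟨_, rfl⟩
  have hJm : ∀ j ∈ J, 2 ≤ (F j).card := fun j hj => by
    rw [hJ] at hj
    exact (Finset.mem_filter.1 hj).2
  obtain ⟨N, hN⟩ : ∃ N, N = ∑ j ∈ J, ((F j).card - 1) := ⟨_, rfl⟩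
  have hA1N : A1.card ≤ r + N := by
    rw [hFcard, hN]
    calc ∑ j, (F j).card ≤ ∑ j, (1 + if j ∈ J then (F j).card - 1 else 0) := by
          refine Finset.sum_le_sum fun j _ => ?_
          by_cases h : j ∈ J
          · rw [if_pos h]; omega
          · rw [if_neg h]
            rw [hJ, Finset.mem_filter] at h
            push Not at h
            have := h (Finset.mem_univ _)
            omega
      _ = r + ∑ j ∈ J, ((F j).card - 1) := by
          rw [Finset.sum_add_distrib, Finset.sum_ite_mem, Finset.univ_inter]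
          simp
  have hJN : J.card ≤ N := by
    rw [hN, Finset.card_eq_sum_ones]
    exact Finset.sum_le_sum fun j hj => by have := hJm j hj; omega
  refine ⟨N, by rw [hcard]; omega, ?_⟩
  -- the extreme values
  have hne : ∀ j ∈ J, (F j).Nonempty := fun j hj => by
    rw [← Finset.card_pos]
    have := hJm j hj
    omega
  obtain ⟨p, hp⟩ : ∃ p : Fin r → ℕ, ∀ (j : Fin r) (hj : j ∈ J), p j = (F j).max' (hne j hj) :=
    ⟨fun j => if h : j ∈ J then (F j).max' (hne j h) else 0, fun j hj => by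
      simp only [dif_pos hj]⟩
  obtain ⟨q, hq⟩ : ∃ q : Fin r → ℕ, ∀ (j : Fin r) (hj : j ∈ J), q j = (F j).min' (hne j hj) :=
    ⟨fun j => if h : j ∈ J then (F j).min' (hne j h) else 0, fun j hj => by
      simp only [dif_pos hj]⟩
  have hpF : ∀ j ∈ J, p j ∈ F j := fun j hj => by rw [hp j hj]; exact Finset.max'_mem _ _
  have hqF : ∀ j ∈ J, q j ∈ F j := fun j hj => by rw [hq j hj]; exact Finset.min'_mem _ _
  have hpq : ∀ j ∈ J, q j ≠ p j := fun j hj => by
    rw [hp j hj, hq j hj]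
    exact ((F j).min'_lt_max'_of_card (hJm j hj)).ne
  have hone : ∀ j ∈ J, (((F j).card : ℝ) - 1) * y ≤ t * (b j - a j) + (|d (p j)| + |d (q j)|) := by
    intro j hj
    have h1 := card_sep (hne j hj) hy fun v hv w hw h =>
      hspA v (hA1A v (hFm j v hv).1) w (hA1A w (hFm j w hw).1) h
    rw [← hp j hj, ← hq j hj] at h1
    obtain ⟨h2, h3⟩ := hFm j _ (hpF j hj)
    obtain ⟨h4, h5⟩ := hFm j _ (hqF j hj)
    have h6 := hjj _ h2
    have h7 := hjj _ h4
    rw [h3] at h6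
    rw [h5] at h7
    have h8 : (p j : ℝ) - q j = t * (x (ii (p j)) - x (ii (q j))) + (d (p j) - d (q j)) := by
      rw [hd]
      simp only
      rw [hii _ (hA1A _ h2), hii _ (hA1A _ h4)]
      ring
    have h9 : t * (x (ii (p j)) - x (ii (q j))) ≤ t * (b j - a j) :=
      mul_le_mul_of_nonneg_left (by linarith [h6.2, h7.1]) ht
    have h10 := le_abs_self (d (p j))
    have h11 := neg_abs_le (d (q j))
    linarith
  have hsum := Finset.sum_le_sum hone
  have e1 : ∑ j ∈ J, (((F j).card : ℝ) - 1) * y = N * y := by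
    rw [hN, ← Finset.sum_mul]
    push_cast
    congr 1
    refine Finset.sum_congr rfl fun j hj => ?_
    have := hJm j hj
    rw [Nat.cast_sub (by omega)]
    norm_num
  rw [e1, Finset.sum_add_distrib, ← Finset.mul_sum] at hsum
  have h1 : t * ∑ j ∈ J, (b j - a j) ≤ t * ∑ j, (b j - a j) :=
    mul_le_mul_of_nonneg_left (Finset.sum_le_sum_of_subset_of_nonneg (Finset.subset_univ _)
      fun j _ _ => sub_nonneg.2 (hab j)) ht
  -- Cauchy-Schwarz
  have hE2 : ∑ j ∈ J, (d (p j) ^ 2 + d (q j) ^ 2) ≤ y ^ 2 := by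
    calc ∑ j ∈ J, (d (p j) ^ 2 + d (q j) ^ 2) ≤ ∑ j ∈ J, ∑ v ∈ F j, d v ^ 2 := by
          refine Finset.sum_le_sum fun j hj => ?_
          have h2 : ({p j, q j} : Finset ℕ) ⊆ F j := by
            intro v hv
            rw [Finset.mem_insert, Finset.mem_singleton] at hv
            rcases hv with rfl | rfl
            · exact hpF j hj
            · exact hqF j hj
          have h3 := Finset.sum_le_sum_of_subset_of_nonneg (f := fun v => d v ^ 2) h2
            fun v _ _ => sq_nonneg _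
          rwa [Finset.sum_pair (hpq j hj).symm] at h3
      _ ≤ ∑ j, ∑ v ∈ F j, d v ^ 2 :=
          Finset.sum_le_sum_of_subset_of_nonneg (Finset.subset_univ _) fun j _ _ =>
            Finset.sum_nonneg fun v _ => sq_nonneg _
      _ = ∑ v ∈ A1, d v ^ 2 := by
          rw [hF]
          exact Finset.sum_fiberwise A1 jj fun v => d v ^ 2
      _ ≤ ∑ v ∈ A, d v ^ 2 :=
          Finset.sum_le_sum_of_subset_of_nonneg (fun v hv => hA1A v hv) fun j _ _ => sq_nonneg _
      _ ≤ y ^ 2 := hdA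
  have hcs : (∑ j ∈ J, (|d (p j)| + |d (q j)|)) ^ 2 ≤ (2 * N) * y ^ 2 := by
    have h2 := sq_sum_le_card_mul_sum_sq (s := J) (f := fun j => |d (p j)| + |d (q j)|)
    have h3 : ∑ j ∈ J, (|d (p j)| + |d (q j)|) ^ 2 ≤ 2 * ∑ j ∈ J, (d (p j) ^ 2 + d (q j) ^ 2) := by
      rw [Finset.mul_sum]
      refine Finset.sum_le_sum fun j _ => ?_
      have h4 := sq_nonneg (|d (p j)| - |d (q j)|)
      have h5 := sq_abs (d (p j))
      have h6 := sq_abs (d (q j))
      nlinarith
    have h4 : (J.card : ℝ) ≤ N := by exact_mod_cast hJN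
    have h5 : 0 ≤ ∑ j ∈ J, (d (p j) ^ 2 + d (q j) ^ 2) :=
      Finset.sum_nonneg fun j _ => by positivity
    calc (∑ j ∈ J, (|d (p j)| + |d (q j)|)) ^ 2
        ≤ J.card * ∑ j ∈ J, (|d (p j)| + |d (q j)|) ^ 2 := h2
      _ ≤ J.card * (2 * ∑ j ∈ J, (d (p j) ^ 2 + d (q j) ^ 2)) :=
          mul_le_mul_of_nonneg_left h3 (Nat.cast_nonneg _)
      _ ≤ N * (2 * y ^ 2) := mul_le_mul h4 (by linarith) (by positivity) (Nat.cast_nonneg _)
      _ = (2 * N) * y ^ 2 := by ring
  have hcs2 : ∑ j ∈ J, (|d (p j)| + |d (q j)|) ≤ √(2 * (N : ℝ)) * y := by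
    refine abs_le_of_sq_le_sq' ?_ (by positivity) |>.2
    rw [mul_pow, Real.sq_sqrt (by positivity)]
    exact hcs
  linarith

end Pool.Agent.K4H62.CN
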