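import Pool.Agent.K4H62.CN.Count

set_option autoImplicit false

/-!
# Sums of squares of the deviations of numbers at large distances
-/

namespace Pool.Agent.K4H62.CN

/-- numbers at mutual distances at least `y` -/
theorem sq_lower {y : ℝ} (hy : 0 < y) (z : ℝ) : ∀ (n : ℕ) (F : Finset ℕ), F.card = n →
    (∀ v ∈ F, ∀ w ∈ F, v < w → y ≤ (w : ℝ) - v) →
    y ^ 2 * (((n : ℝ) ^ 3 - n) / 12) ≤ ∑ v ∈ F, ((v : ℝ) - z) ^ 2 := by
  classical
  intro n
  induction n using Nat.strong_induction_on with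
  | _ n ih =>
    intro F hF hsp
    rcases Nat.lt_or_ge n 2 with h2 | h2
    · have h3 : ((n : ℝ) ^ 3 - n) = 0 := by
        interval_cases n <;> norm_num
      rw [h3]
      have : 0 ≤ ∑ v ∈ F, ((v : ℝ) - z) ^ 2 := Finset.sum_nonneg fun v _ => sq_nonneg _
      linarith
    · have hne : F.Nonempty := by
        rw [← Finset.card_pos]
        omega
      have hc := card_sep hne hy hsp
      obtain ⟨a, ha⟩ : ∃ a, a = F.min' hne := ⟨_, rfl⟩
      obtain ⟨b, hb⟩ : ∃ b, b = F.max' hne := ⟨_, rfl⟩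
      have haF : a ∈ F := by rw [ha]; exact F.min'_mem hne
      have hbF : b ∈ F := by rw [hb]; exact F.max'_mem hne
      rw [← ha, ← hb, hF] at hc
      have hn1 : (1 : ℝ) ≤ (n : ℝ) - 1 := by
        have : (2 : ℝ) ≤ n := by exact_mod_cast h2
        linarith
      have hab : a ≠ b := by
        rintro rfl
        have : 0 < ((n : ℝ) - 1) * y := mul_pos (by linarith) hy
        linarith
      have hbE : b ∈ F.erase a := Finset.mem_erase.2 ⟨hab.symm, hbF⟩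
      have hcard : ((F.erase a).erase b).card = n - 2 := by
        rw [Finset.card_erase_of_mem hbE, Finset.card_erase_of_mem haF, hF]
        omega
      have h3 := ih (n - 2) (by omega) ((F.erase a).erase b) hcard fun v hv w hw =>
        hsp v (Finset.mem_of_mem_erase (Finset.mem_of_mem_erase hv)) w
          (Finset.mem_of_mem_erase (Finset.mem_of_mem_erase hw))
      have h4 := Finset.add_sum_erase F (fun v => ((v : ℝ) - z) ^ 2) haF
      have h5 := Finset.add_sum_erase (F.erase a) (fun v => ((v : ℝ) - z) ^ 2) hbE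
      rw [← h4, ← h5]
      have e1 : ((n - 2 : ℕ) : ℝ) = (n : ℝ) - 2 := by
        rw [Nat.cast_sub h2]
        norm_num
      rw [e1] at h3
      have h6 : (((n : ℝ) - 1) * y) ^ 2 ≤ ((b : ℝ) - a) ^ 2 :=
        pow_le_pow_left₀ (mul_nonneg (by linarith) hy.le) hc 2
      have h7 : ((b : ℝ) - a) ^ 2 ≤ 2 * (((a : ℝ) - z) ^ 2 + ((b : ℝ) - z) ^ 2) := by
        nlinarith [sq_nonneg ((a : ℝ) - z + ((b : ℝ) - z))]
      have e2 : y ^ 2 * (((n : ℝ) ^ 3 - n) / 12) = y ^ 2 * ((((n : ℝ) - 2) ^ 3 - ((n : ℝ) - 2)) / 12) +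
          (((n : ℝ) - 1) * y) ^ 2 / 2 := by ring
      rw [e2]
      linarith

/-- The values of `u` are far from vectors with few values. -/
theorem sq_group {s r : ℕ} {u : Fin s → ℕ} {z : Fin s → ℝ} {y : ℝ} (hy : 0 < y) (hr : 0 < r)
    (hz : (Finset.univ.image z).card ≤ r) (hsp : ∀ i j, u i < u j → y ≤ (u j : ℝ) - u i)
    {A : ℕ} (hA : A = ((Finset.univ.image u).erase 0).card) :
    y ^ 2 * (((A : ℝ) ^ 3 / (r : ℝ) ^ 2 - A) / 12) ≤ ∑ i, ((u i : ℝ) - z i) ^ 2 := by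
  classical
  obtain ⟨B, hB⟩ : ∃ B, B = (Finset.univ.image u).erase 0 := ⟨_, rfl⟩
  rw [← hB] at hA
  have hBm : ∀ v ∈ B, ∃ i, u i = v := by
    intro v hv
    rw [hB, Finset.mem_erase, Finset.mem_image] at hv
    obtain ⟨-, i, -, h2⟩ := hv
    exact ⟨i, h2⟩
  rcases Nat.eq_zero_or_pos s with hs | hs
  · subst hs
    have hB0 : B = ∅ := by
      rw [Finset.eq_empty_iff_forall_notMem]
      intro v hv
      obtain ⟨i, -⟩ := hBm v hv
      exact i.elim0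
    have hA0 : A = 0 := by rw [hA, hB0]; rfl
    rw [hA0]
    simp
  obtain ⟨i0⟩ : Nonempty (Fin s) := ⟨⟨0, hs⟩⟩
  obtain ⟨f, hf⟩ : ∃ f : ℕ → Fin s, ∀ v ∈ B, u (f v) = v := by
    choose g hg using hBm
    refine ⟨fun v => if h : v ∈ B then g v h else i0, fun v hv => ?_⟩
    show u (if h : v ∈ B then g v h else i0) = v
    rw [dif_pos hv]
    exact hg v hv
  obtain ⟨V, hV⟩ : ∃ V, V = Finset.univ.image z := ⟨_, rfl⟩
  rw [← hV] at hz
  have hinj : Set.InjOn f (B : Set ℕ) := by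
    intro v hv w hw h
    rw [← hf v hv, ← hf w hw, h]
  have h1 : ∑ v ∈ B, ((v : ℝ) - z (f v)) ^ 2 ≤ ∑ i, ((u i : ℝ) - z i) ^ 2 := by
    have h2 : ∑ v ∈ B, ((v : ℝ) - z (f v)) ^ 2 = ∑ i ∈ B.image f, ((u i : ℝ) - z i) ^ 2 := by
      rw [Finset.sum_image hinj]
      exact Finset.sum_congr rfl fun v hv => by rw [hf v hv]
    rw [h2]
    exact Finset.sum_le_sum_of_subset_of_nonneg (Finset.subset_univ _) fun i _ _ => sq_nonneg _
  have h2 : ∑ v ∈ B, ((v : ℝ) - z (f v)) ^ 2 =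
      ∑ w ∈ V, ∑ v ∈ B.filter (fun v => z (f v) = w), ((v : ℝ) - z (f v)) ^ 2 :=
    (Finset.sum_fiberwise_of_maps_to (fun v _ => by
      rw [hV]; exact Finset.mem_image_of_mem _ (Finset.mem_univ _)) _).symm
  obtain ⟨n, hn⟩ : ∃ n : ℝ → ℕ, n = fun w => (B.filter (fun v => z (f v) = w)).card := ⟨_, rfl⟩
  have h3 : ∀ w ∈ V, y ^ 2 * (((n w : ℝ) ^ 3 - n w) / 12) ≤
      ∑ v ∈ B.filter (fun v => z (f v) = w), ((v : ℝ) - z (f v)) ^ 2 := by
    intro w _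
    have h4 := sq_lower hy w (n w) (B.filter (fun v => z (f v) = w)) (by rw [hn])
      fun v hv v' hv' hlt => by
        have h5 := (Finset.mem_filter.1 hv).1
        have h6 := (Finset.mem_filter.1 hv').1
        have h7 := hsp (f v) (f v') (by rw [hf v h5, hf v' h6]; exact hlt)
        rwa [hf v h5, hf v' h6] at h7
    refine h4.trans (le_of_eq ?_)
    exact Finset.sum_congr rfl fun v hv => by rw [(Finset.mem_filter.1 hv).2]
  have h4 : ∑ w ∈ V, (n w : ℝ) = A := by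
    have h5 : ∑ w ∈ V, n w = B.card := by
      rw [hn]
      exact (Finset.card_eq_sum_card_fiberwise fun v _ => by
        rw [hV]; exact Finset.mem_image_of_mem _ (Finset.mem_univ _)).symm
    rw [hA]
    exact_mod_cast h5
  have h5 : (A : ℝ) ^ 3 / (r : ℝ) ^ 2 ≤ ∑ w ∈ V, (n w : ℝ) ^ 3 := by
    have h6 := pow_sum_div_card_le_sum_pow (s := V) (f := fun w => (n w : ℝ)) (fun w _ =>
      Nat.cast_nonneg _) 2
    rw [h4] at h6
    refine le_trans ?_ h6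
    rcases Nat.eq_zero_or_pos V.card with h7 | h7
    · exfalso
      rw [Finset.card_eq_zero] at h7
      have : z i0 ∈ V := by rw [hV]; exact Finset.mem_image_of_mem _ (Finset.mem_univ _)
      rw [h7] at this
      exact absurd this (Finset.notMem_empty _)
    · have h8 : (0 : ℝ) < V.card := by exact_mod_cast h7
      have h9 : (V.card : ℝ) ≤ r := by exact_mod_cast hz
      exact div_le_div_of_nonneg_left (by positivity) (by positivity)
        (pow_le_pow_left₀ h8.le h9 2)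
  have h6 := Finset.sum_le_sum h3
  rw [← h2] at h6
  refine le_trans ?_ (h6.trans h1)
  have h7 : ∑ w ∈ V, y ^ 2 * (((n w : ℝ) ^ 3 - n w) / 12) =
      y ^ 2 * ((∑ w ∈ V, (n w : ℝ) ^ 3 - ∑ w ∈ V, (n w : ℝ)) / 12) := by
    rw [← Finset.sum_sub_distrib, Finset.sum_div, Finset.mul_sum]
  rw [h7, h4]
  refine mul_le_mul_of_nonneg_left ?_ (sq_nonneg _)
  linarith

/-- the arithmetic of the last step -/
theorem last2 {y T μ U R δ X t : ℝ} {r A : ℕ} (hy : 0 < y) (hT : 0 < T) (hR : 576 ≤ R)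
    (hr : 0 < r) (hRr : 32 * (r : ℝ) + 256 ≤ R) (hU : R * T ^ 2 ≤ U) (hμ0 : 0 ≤ μ)
    (hμ : μ ≤ T + y) (hyR : y * R ≤ 19.2 * T) (hU2 : U < (16 * (A : ℝ) + 8) * μ ^ 2)
    (hX : 150000 * (r : ℝ) ^ 2 * δ ≤ R ^ 3 * X) (htX : t ^ 2 * X ≤ y ^ 2)
    (hA : y ^ 2 * (((A : ℝ) ^ 3 / (r : ℝ) ^ 2 - A) / 12) ≤ 5 * y ^ 2 + 5 / 4 * (t ^ 2 * δ)) :
    False := by
  obtain ⟨a, ha⟩ : ∃ a : ℝ, a = A := ⟨_, rfl⟩
  obtain ⟨ρ, hρ⟩ : ∃ ρ : ℝ, ρ = r := ⟨_, rfl⟩
  have hρ1 : 1 ≤ ρ := by rw [hρ]; exact_mod_cast hr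
  have ha0 : 0 ≤ a := by rw [ha]; exact Nat.cast_nonneg _
  rw [← ha] at hU2 hA
  rw [← hρ] at hX hA hRr
  -- the number of the values
  have hyT : y ≤ T / 30 := by
    have h1 : y * 576 ≤ 19.2 * T := (mul_le_mul_of_nonneg_left hR hy.le).trans hyR
    linarith
  have h1 : R < (16 * a + 8) * (961 / 900) := by
    have h2 : μ ^ 2 ≤ (31 / 30 * T) ^ 2 := pow_le_pow_left₀ hμ0 (by linarith) 2
    have h3 : (16 * a + 8) * μ ^ 2 ≤ (16 * a + 8) * (31 / 30 * T) ^ 2 :=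
      mul_le_mul_of_nonneg_left h2 (by linarith)
    have h4 : R * T ^ 2 < (16 * a + 8) * (961 / 900) * T ^ 2 := by
      have e1 : (16 * a + 8) * (31 / 30 * T) ^ 2 = (16 * a + 8) * (961 / 900) * T ^ 2 := by ring
      linarith
    exact lt_of_mul_lt_mul_right h4 (sq_nonneg T)
  have h2 : R < 17.4 * a := by linarith
  have h3 : 16 * a > 0.936 * R - 8 := by linarith
  have hR0 : 0 < R := by linarith
  -- the cube
  have h4 : R ^ 3 ≤ 5269 * a ^ 3 := by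
    have h5 : R ^ 3 ≤ (17.4 * a) ^ 3 := pow_le_pow_left₀ hR0.le h2.le 3
    have e1 : (17.4 * a) ^ 3 = 5268.024 * a ^ 3 := by ring
    have h6 : 0 ≤ a ^ 3 := by positivity
    linarith
  have hρ2 : 0 < ρ ^ 2 := by positivity
  have h5 : t ^ 2 * δ * (150000 * ρ ^ 2) ≤ y ^ 2 * (5269 * a ^ 3) := by
    have h6 : t ^ 2 * (150000 * ρ ^ 2 * δ) ≤ t ^ 2 * (R ^ 3 * X) :=
      mul_le_mul_of_nonneg_left hX (sq_nonneg _)
    have h7 : R ^ 3 * (t ^ 2 * X) ≤ R ^ 3 * y ^ 2 :=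
      mul_le_mul_of_nonneg_left htX (by positivity)
    have h8 : R ^ 3 * y ^ 2 ≤ 5269 * a ^ 3 * y ^ 2 :=
      mul_le_mul_of_nonneg_right h4 (sq_nonneg _)
    have e1 : t ^ 2 * (R ^ 3 * X) = R ^ 3 * (t ^ 2 * X) := by ring
    have e2 : t ^ 2 * δ * (150000 * ρ ^ 2) = t ^ 2 * (150000 * ρ ^ 2 * δ) := by ring
    rw [e2]
    linarith
  -- multiply by `12 ρ ^ 2`
  have h6 : y ^ 2 * (a ^ 3 - a * ρ ^ 2) ≤ 60 * y ^ 2 * ρ ^ 2 + 15 * (t ^ 2 * δ) * ρ ^ 2 := by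
    have h7 := mul_le_mul_of_nonneg_right hA (by positivity : 0 ≤ 12 * ρ ^ 2)
    have e1 : y ^ 2 * ((a ^ 3 / ρ ^ 2 - a) / 12) * (12 * ρ ^ 2) = y ^ 2 * (a ^ 3 - a * ρ ^ 2) := by
      field_simp
    rw [e1] at h7
    linarith
  have hy2 : 0 < y ^ 2 := by positivity
  have h7 : y ^ 2 * (a ^ 3 - a * ρ ^ 2) ≤ y ^ 2 * (60 * ρ ^ 2 + 0.527 * a ^ 3) := by
    have h8 : 0 ≤ a ^ 3 * y ^ 2 := by positivity
    have e1 : 15 * (t ^ 2 * δ) * ρ ^ 2 = t ^ 2 * δ * (150000 * ρ ^ 2) / 10000 := by ring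
    rw [e1] at h6
    linarith
  have h8 : a ^ 3 - a * ρ ^ 2 ≤ 60 * ρ ^ 2 + 0.527 * a ^ 3 := le_of_mul_le_mul_left h7 hy2
  -- the contradiction
  have h9 : ρ ≤ (a - 14) / 1.87 := by
    rw [le_div_iff₀ (by norm_num)]
    linarith
  have h10 : 33 < a := by linarith
  have h11 : ρ ^ 2 ≤ ((a - 14) / 1.87) ^ 2 := pow_le_pow_left₀ (by linarith) h9 2
  have h12 : (a + 60) * ρ ^ 2 ≤ (a + 60) * ((a - 14) / 1.87) ^ 2 :=
    mul_le_mul_of_nonneg_left h11 (by linarith)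
  have e1 : (a + 60) * ((a - 14) / 1.87) ^ 2 = (a + 60) * (a - 14) ^ 2 / 3.4969 := by ring
  rw [e1] at h12
  have h13 : 0.473 * a ^ 3 ≤ (a + 60) * (a - 14) ^ 2 / 3.4969 := by linarith
  obtain ⟨b, hb⟩ : ∃ b, b = a - 33 := ⟨_, rfl⟩
  have hb0 : 0 < b := by linarith
  have hab : a = b + 33 := by linarith
  rw [hab] at h13
  have h14 : 0 < b ^ 2 := by positivity
  have h15 : 0 < b ^ 3 := by positivity
  have h16 : 0.473 * (b + 33) ^ 3 * 3.4969 ≤ (b + 33 + 60) * (b + 33 - 14) ^ 2 := by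
    rw [le_div_iff₀ (by norm_num)] at h13
    exact h13
  nlinarith

end Pool.Agent.K4H62.CN
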