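import Pool.Agent.Y939.XN.Sext
import Pool.Agent.K4H62.CN.Sq

set_option autoImplicit false

/-!
# Nef classes whose coefficients lie in few intervals of small total length
-/

namespace Pool.Agent.K4H62.CN

open MvPolynomial Pool.Agent.W609 Pool.Agent.W609.CR Pool.Agent.TH167 Pool.Agent.TH167.SH
  Pool.Agent.Y939.XN

/-- the self-intersection of a negative curve is small -/
theorem rough {y T μ U R : ℝ} (hy : 0 ≤ y) (hT : 0 < T) (hR : 576 ≤ R) (hU : R * T ^ 2 ≤ U)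
    (hμ0 : 0 ≤ μ) (hμ2 : μ ≤ 2 * T) (hμ : μ ≤ T + y)
    (hnb : y * (U - 24 * μ ^ 2) ≤ 16 * μ ^ 3) : y * R ≤ 19.2 * T := by
  have hT2 : 0 < T ^ 2 := by positivity
  -- a general step
  have step : ∀ A : ℝ, 1 ≤ A → A ≤ 2 → μ ≤ A * T →
      y * (R - 24 * A ^ 2) ≤ 16 * A ^ 3 * T := by
    intro A hA hA2 hμA
    have h2 : μ ^ 2 ≤ (A * T) ^ 2 := pow_le_pow_left₀ hμ0 hμA 2
    have h3 : μ ^ 3 ≤ (A * T) ^ 3 := pow_le_pow_left₀ hμ0 hμA 3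
    have h4 : y * (R * T ^ 2 - 24 * (A * T) ^ 2) ≤ 16 * (A * T) ^ 3 := by
      refine le_trans (mul_le_mul_of_nonneg_left ?_ hy) (hnb.trans ?_)
      · linarith
      · linarith
    have e1 : y * (R * T ^ 2 - 24 * (A * T) ^ 2) = T ^ 2 * (y * (R - 24 * A ^ 2)) := by ring
    have e2 : 16 * (A * T) ^ 3 = T ^ 2 * (16 * A ^ 3 * T) := by ring
    rw [e1, e2] at h4
    exact le_of_mul_le_mul_left h4 hT2
  have hR0 : 0 ≤ y * (R - 576) := mul_nonneg hy (by linarith)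
  -- first step
  have h1 := step 2 (by norm_num) (by norm_num) hμ2
  have h2 : y ≤ 0.27 * T := by nlinarith
  have h3 := step 1.27 (by norm_num) (by norm_num) (by linarith)
  have h4 : y ≤ 0.062 * T := by nlinarith
  have h5 := step 1.062 (by norm_num) (by norm_num) (by linarith)
  have h6 : y ≤ 0.0352 * T := by nlinarith
  have h7 := step 1.0352 (by norm_num) (by norm_num) (by linarith)
  nlinarith

/-- the arithmetic of the last step -/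
theorem last {y T μ U R Λ t : ℝ} {r N A : ℕ} (hy : 0 < y) (hT : 0 < T) (hR : 576 ≤ R)
    (hRr : 16 * (r : ℝ) + 128 ≤ R) (hU : R * T ^ 2 ≤ U) (hμ0 : 0 ≤ μ) (hμ : μ ≤ T + y)
    (hyR : y * R ≤ 19.2 * T) (hA : A ≤ r + 1 + N) (hU2 : U < (16 * (A : ℝ) + 8) * μ ^ 2)
    (hN : (N : ℝ) * y ≤ t * Λ + √(2 * (N : ℝ)) * y)
    (hΛ : 20 * (t * Λ) ≤ (R - 16 * r - 128) * y) : False := by
  have hN0 : (0 : ℝ) ≤ N := Nat.cast_nonneg N
  have hr0 : (0 : ℝ) ≤ r := Nat.cast_nonneg r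
  have hsq : √(2 * (N : ℝ)) ≤ N / 5 + 5 / 2 := by
    refine Real.sqrt_le_iff.2 ⟨by positivity, ?_⟩
    have := sq_nonneg ((N : ℝ) / 5 - 5 / 2)
    nlinarith
  have h1 : (N : ℝ) * y ≤ (R - 16 * r - 128) / 20 * y + (N / 5 + 5 / 2) * y := by
    have h2 := mul_le_mul_of_nonneg_right hsq hy.le
    linarith
  have h2 : (N : ℝ) ≤ (R - 16 * r - 128) / 20 + (N / 5 + 5 / 2) := by
    have h3 : (N : ℝ) * y ≤ ((R - 16 * r - 128) / 20 + (N / 5 + 5 / 2)) * y := by linarith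
    exact le_of_mul_le_mul_right h3 hy
  have hA' : (A : ℝ) ≤ r + 1 + N := by exact_mod_cast hA
  obtain ⟨C, hC⟩ : ∃ C : ℝ, C = 16 * r + 24 + 16 * N := ⟨_, rfl⟩
  have hC0 : 0 ≤ C := by rw [hC]; positivity
  have hCR : C ≤ R - 38.4 := by rw [hC]; linarith
  have h3 : U < C * (T + y) ^ 2 := by
    have h4 : μ ^ 2 ≤ (T + y) ^ 2 := pow_le_pow_left₀ hμ0 hμ 2
    have h5 : (16 * (A : ℝ) + 8) * μ ^ 2 ≤ C * (T + y) ^ 2 :=
      mul_le_mul (by rw [hC]; linarith) h4 (by positivity) hC0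
    linarith
  have h4 : C * (T + y) ^ 2 ≤ (R - 38.4) * (T + y) ^ 2 :=
    mul_le_mul_of_nonneg_right hCR (sq_nonneg _)
  have h5 : (R - 38.4) * (T + y) ^ 2 ≤ R * T ^ 2 := by
    have h6 : (y * R) * (2 * T) ≤ (19.2 * T) * (2 * T) :=
      mul_le_mul_of_nonneg_right hyR (by positivity)
    have h7 : (y * R) * y ≤ (19.2 * T) * y := mul_le_mul_of_nonneg_right hyR hy.le
    have h8 : 0 < T * y := mul_pos hT hy
    have h9 : 0 < y ^ 2 := by positivity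
    nlinarith
  linarith

/-- The consequences of `D G < 0`. -/
theorem core {s : ℕ} {P : Fin (s + 4) → Fin 2 → ℂ}
    (hP : AlgebraicIndependent ℚ (fun ij : Fin (s + 4) × Fin 2 => P ij.1 ij.2))
    {x : Fin (s + 4) → ℝ} {c M : ℝ} (hM : 0 < M) (hx0 : ∀ i, 0 ≤ x i)
    (hxM : ∀ i, x i ≤ M) (hc : 24 * M ≤ c) (hsq : ∑ i, x i ^ 2 ≤ c ^ 2)
    {G : MvPolynomial (Fin 3) ℂ} {e : ℕ} {u : Fin (s + 4) → ℕ} (hG : Irreducible G)
    (hGe : G.IsHomogeneous e) (hGo : ∀ j, Ord (aff (P j)) (u j) G)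
    (hfew : ∀ W, (∀ i, u i ≤ W) → 144 * W ^ 2 ≤ max (∑ i, u i ^ 2) (e ^ 2) →
      (16 * ((Finset.univ.image u).erase 0).card + 8) * W ^ 2 ≤ max (∑ i, u i ^ 2) (e ^ 2) →
      ∑ i, u i ^ 2 ≤ e ^ 2) (hcon : c * e < ∑ i, x i * (u i : ℝ)) :
    ∃ t y T μ U R : ℝ, R * M ^ 2 = c ^ 2 ∧ T = t * M ∧ 0 ≤ t ∧ 0 < y ∧ 0 < T ∧ 0 ≤ μ ∧ 576 ≤ R ∧
      R * T ^ 2 ≤ U ∧ μ ≤ T + y ∧ y * R ≤ 19.2 * T ∧
      U < (16 * ((((Finset.univ.image u).erase 0).card : ℕ) : ℝ) + 8) * μ ^ 2 ∧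
      ∑ i, ((u i : ℝ) - t * x i) ^ 2 + t ^ 2 * (c ^ 2 - ∑ i, x i ^ 2) ≤ y ^ 2 ∧
      ∀ i j, u i < u j → y ≤ (u j : ℝ) - u i := by
  classical
  have hue : ∀ i, u i ≤ e := fun i => van_le hG.ne_zero hGe (hGo i).1
  have hkn : 3 * e < ∑ i, u i := by
    by_contra h0
    push Not at h0
    refine absurd (std_nonneg hx0 (fun i j k _ _ _ => ?_) hue h0) (not_le.2 hcon)
    have h1 := hxM i
    have h2 := hxM j
    have h3 := hxM k
    linarith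
  obtain ⟨p, hp⟩ : ∃ p, p = ∑ i, x i * (u i : ℝ) := ⟨_, rfl⟩
  obtain ⟨X2, hX2⟩ : ∃ X2, X2 = ∑ i, x i ^ 2 := ⟨_, rfl⟩
  obtain ⟨U2, hU2⟩ : ∃ U2 : ℝ, U2 = ∑ i, (u i : ℝ) ^ 2 := ⟨_, rfl⟩
  rw [← hp] at hcon
  rw [← hX2] at hsq ⊢
  have he0 : (0 : ℝ) ≤ e := Nat.cast_nonneg e
  have hc0 : 0 < c := by linarith
  obtain ⟨X, hXd⟩ : ∃ X, X = c ^ 2 - X2 := ⟨_, rfl⟩
  have hX : 0 ≤ X := by rw [hXd]; linarith
  rw [← hXd]
  -- `G ^ 2 < 0`
  have hcs : p ^ 2 ≤ X2 * U2 := by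
    rw [hp, hX2, hU2]
    exact Finset.sum_mul_sq_le_sq_mul_sq _ _ _
  have hce0 : 0 ≤ c * e := mul_nonneg hc0.le he0
  have hp2 : (c * e) ^ 2 < p ^ 2 := pow_lt_pow_left₀ hcon hce0 two_ne_zero
  have hU20 : 0 ≤ U2 := by rw [hU2]; exact Finset.sum_nonneg fun i _ => sq_nonneg _
  have hneg : (e : ℝ) ^ 2 < U2 := by
    have h1 : X2 * U2 ≤ c ^ 2 * U2 := mul_le_mul_of_nonneg_right (by linarith) hU20
    have h2 : c ^ 2 * (e : ℝ) ^ 2 < c ^ 2 * U2 := by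
      have e1 : (c * e) ^ 2 = c ^ 2 * (e : ℝ) ^ 2 := by ring
      linarith
    exact lt_of_mul_lt_mul_left h2 (sq_nonneg c)
  have hU2n : U2 = ((∑ i, u i ^ 2 : ℕ) : ℝ) := by rw [hU2]; push_cast; rfl
  have hnegn : e ^ 2 < ∑ i, u i ^ 2 := by
    rw [hU2n] at hneg
    exact_mod_cast hneg
  have hip : ip e u e u < 0 := by
    unfold ip
    have h1 : ((e ^ 2 : ℕ) : ℤ) < ((∑ i, u i ^ 2 : ℕ) : ℤ) := by exact_mod_cast hnegn
    push_cast at h1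
    have h2 : ∑ j, (u j : ℤ) * u j = ∑ j, (u j : ℤ) ^ 2 :=
      Finset.sum_congr rfl fun j _ => by ring
    rw [h2]
    have h3 : (e : ℤ) * e = (e : ℤ) ^ 2 := by ring
    omega
  have hkk : kk e u < 0 := by
    unfold kk
    have h1 : ((3 * e : ℕ) : ℤ) < ((∑ i, u i : ℕ) : ℤ) := by exact_mod_cast hkn
    push_cast at h1
    omega
  -- a multiplicity at least four
  have hfour : ∃ i, 4 ≤ u i := by
    by_contra h0
    push Not at h0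
    have h1 := T3.neg9 (w := u) (by
      have : (Finset.univ.filter fun i => 3 < u i) = ∅ := by
        refine Finset.filter_false_of_mem fun i _ => ?_
        have := h0 i
        omega
      rw [this]
      simp) hP hG hGe hGo hip
    omega
  obtain ⟨i1, -, hi1⟩ := Finset.exists_max_image (Finset.univ : Finset (Fin (s + 4))) u
    Finset.univ_nonempty
  obtain ⟨i4, hi4⟩ := hfour
  have hμ4 : 4 ≤ u i1 := hi4.trans (hi1 i4 (Finset.mem_univ _))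
  have hxu := xu hP hG hGe hGo (k := i1) (by omega)
  obtain ⟨k, hk⟩ : ∃ k, ∑ i, u i ^ 2 = e ^ 2 + k := ⟨∑ i, u i ^ 2 - e ^ 2, by omega⟩
  have hk1 : 1 ≤ k := by omega
  obtain ⟨μ, hμd⟩ : ∃ μ : ℝ, μ = (u i1 : ℝ) := ⟨_, rfl⟩
  have hμ4r : 4 ≤ μ := by rw [hμd]; exact_mod_cast hμ4
  have hkμ : (k : ℝ) ≤ μ := by rw [hμd]; exact_mod_cast (by omega : k ≤ u i1)
  have hkR : U2 = (e : ℝ) ^ 2 + k := by
    rw [hU2n, hk]
    push_cast
    ring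
  -- the comparison with `t x`
  obtain ⟨t, ht⟩ : ∃ t : ℝ, t = e / c := ⟨_, rfl⟩
  have htc : t * c = e := by rw [ht]; field_simp
  have ht0 : 0 ≤ t := by rw [ht]; positivity
  have hsum : ∑ i, ((u i : ℝ) - t * x i) ^ 2 = U2 - 2 * t * p + t ^ 2 * X2 := by
    have e1 : ∀ i, ((u i : ℝ) - t * x i) ^ 2 =
        (u i : ℝ) ^ 2 - 2 * t * (x i * u i) + t ^ 2 * x i ^ 2 := fun i => by ring
    simp only [e1]
    rw [Finset.sum_add_distrib, Finset.sum_sub_distrib, ← Finset.mul_sum, ← Finset.mul_sum, hU2,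
      hp, hX2]
  have htp : (e : ℝ) ^ 2 ≤ t * p := by
    have h1 : t * (c * e) ≤ t * p := mul_le_mul_of_nonneg_left hcon.le ht0
    have e1 : t * (c * e) = (t * c) * e := by ring
    rw [e1, htc] at h1
    have e2 : (e : ℝ) ^ 2 = e * e := by ring
    linarith
  have hsum2 : ∑ i, ((u i : ℝ) - t * x i) ^ 2 ≤ k - t ^ 2 * X := by
    rw [hsum]
    have e1 : t ^ 2 * X = (t * c) ^ 2 - t ^ 2 * X2 := by rw [hXd]; ring
    rw [e1, htc]
    linarith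
  have hone : (μ - t * x i1) ^ 2 ≤ k - t ^ 2 * X := by
    refine le_trans ?_ hsum2
    rw [hμd]
    exact Finset.single_le_sum (f := fun i => ((u i : ℝ) - t * x i) ^ 2)
      (fun i _ => sq_nonneg _) (Finset.mem_univ i1)
  have htM : t * x i1 ≤ t * M := mul_le_mul_of_nonneg_left (hxM i1) ht0
  have htX0 : 0 ≤ t ^ 2 * X := by positivity
  obtain ⟨T, hT⟩ : ∃ T, T = t * M := ⟨_, rfl⟩
  rw [← hT] at htM
  -- `μ ≤ 2 T`
  have hμT : μ ≤ 2 * T := by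
    by_contra h2
    push Not at h2
    have h3 : μ / 2 < μ - t * x i1 := by linarith
    have h4 : (μ / 2) ^ 2 < (μ - t * x i1) ^ 2 := pow_lt_pow_left₀ h3 (by linarith) two_ne_zero
    have h5 : 0 ≤ μ * (μ - 4) := mul_nonneg (by linarith) (by linarith)
    have e1 : (μ / 2) ^ 2 = μ * (μ - 4) / 4 + μ := by ring
    linarith
  have hT0 : 0 < T := by linarith
  obtain ⟨E, hE⟩ : ∃ E : ℝ, E = (e : ℝ) ^ 2 := ⟨_, rfl⟩
  obtain ⟨R, hR⟩ : ∃ R : ℝ, R = c ^ 2 / M ^ 2 := ⟨_, rfl⟩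
  have hM2 : 0 < M ^ 2 := by positivity
  have hRM : R * M ^ 2 = c ^ 2 := by rw [hR]; field_simp
  have hR576 : 576 ≤ R := by
    rw [hR, le_div_iff₀ hM2]
    have h1 : (24 * M) ^ 2 ≤ c ^ 2 := pow_le_pow_left₀ (by positivity) hc 2
    linarith
  have hER : E = R * T ^ 2 := by
    rw [hE, ← htc, hT]
    have e1 : R * (t * M) ^ 2 = t ^ 2 * (R * M ^ 2) := by ring
    rw [e1, hRM]
    ring
  have hEU : E ≤ U2 := by rw [hE]; exact hneg.le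
  have h144 : 144 * u i1 ^ 2 ≤ ∑ i, u i ^ 2 := by
    have h1 : μ ^ 2 ≤ (2 * T) ^ 2 := pow_le_pow_left₀ (by linarith) hμT 2
    have h2 : (144 : ℝ) * μ ^ 2 ≤ ((∑ i, u i ^ 2 : ℕ) : ℝ) := by
      rw [← hU2n]
      have h3 : 576 * T ^ 2 ≤ R * T ^ 2 := mul_le_mul_of_nonneg_right hR576 (sq_nonneg _)
      have e1 : (2 * T) ^ 2 = 4 * T ^ 2 := by ring
      linarith
    rw [hμd] at h2
    exact_mod_cast h2
  have hsp : ∀ i j, u i ≠ u j → (k : ℤ) ≤ ((u i : ℤ) - u j) ^ 2 := fun i j hij => by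
    have h1 := spaced hP hG hGe hGo hij
    rw [hk] at h1
    push_cast at h1
    linarith
  have hnb := neg_bound hk1 hk (fun i => hi1 i (Finset.mem_univ _)) (i1 := i1) (by omega)
    hsp hfew h144
  rw [← hU2n, ← hμd] at hnb
  obtain ⟨y, hy⟩ : ∃ y : ℝ, y = √(k : ℝ) := ⟨_, rfl⟩
  have hy2 : y ^ 2 = k := by rw [hy]; exact Real.sq_sqrt (Nat.cast_nonneg _)
  have hy0 : 0 < y := by
    rw [hy]
    exact Real.sqrt_pos.2 (by exact_mod_cast hk1)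
  rw [← hy] at hnb
  have hμTy : μ ≤ T + y := by
    have h1 : μ - t * x i1 ≤ y := by
      have h2 : (μ - t * x i1) ^ 2 ≤ y ^ 2 := by rw [hy2]; linarith
      exact le_trans (le_abs_self _) (abs_le_of_sq_le_sq h2 hy0.le)
    linarith
  have hURT : R * T ^ 2 ≤ U2 := by rw [← hER]; exact hEU
  have hyR := rough hy0.le hT0 hR576 hURT (by linarith) hμT hμTy hnb
  have hU2lt : U2 < (16 * ((((Finset.univ.image u).erase 0).card : ℕ) : ℝ) + 8) * μ ^ 2 := by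
    by_contra h1
    push Not at h1
    have hmax : max (∑ i, u i ^ 2) (e ^ 2) = ∑ i, u i ^ 2 := max_eq_left (by omega)
    have h2 := hfew (u i1) (fun i => hi1 i (Finset.mem_univ _)) (by rw [hmax]; exact h144) (by
      rw [hmax]
      rw [hU2n, hμd] at h1
      exact_mod_cast h1)
    omega
  refine ⟨t, y, T, μ, U2, R, hRM, hT, ht0, hy0, hT0, by linarith, hR576, hURT, hμTy, hyR, hU2lt,
    ?_, fun i j hij => ?_⟩
  · rw [hy2]
    linarith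
  · have h1 := hsp j i hij.ne'
    have h2 : (k : ℝ) ≤ ((u j : ℝ) - u i) ^ 2 := by exact_mod_cast h1
    have h3 : (0 : ℝ) ≤ (u j : ℝ) - u i := by
      have : (u i : ℝ) ≤ u j := by exact_mod_cast hij.le
      linarith
    rw [hy]
    exact Real.sqrt_le_iff.2 ⟨h3, h2⟩

/-- The inequality for irreducible curves: intervals. -/
theorem nef_int {s r : ℕ} {P : Fin (s + 4) → Fin 2 → ℂ}
    (hP : AlgebraicIndependent ℚ (fun ij : Fin (s + 4) × Fin 2 => P ij.1 ij.2))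
    {x : Fin (s + 4) → ℝ} {c M : ℝ} {a b : Fin r → ℝ} (hM : 0 < M) (hx0 : ∀ i, 0 ≤ x i)
    (hxM : ∀ i, x i ≤ M) (hab : ∀ j, a j ≤ b j)
    (hxI : ∀ i, x i = 0 ∨ ∃ j, a j ≤ x i ∧ x i ≤ b j)
    (hc : 24 * M ≤ c) (hcr : (16 * r + 128) * M ^ 2 ≤ c ^ 2) (hsq : ∑ i, x i ^ 2 ≤ c ^ 2)
    (h : 400 * M ^ 4 * (∑ j, (b j - a j)) ^ 2 ≤
      (c ^ 2 - (16 * r + 128) * M ^ 2) ^ 2 * (c ^ 2 - ∑ i, x i ^ 2))
    {G : MvPolynomial (Fin 3) ℂ} {e : ℕ} {u : Fin (s + 4) → ℕ} (hG : Irreducible G)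
    (hGe : G.IsHomogeneous e) (hGo : ∀ j, Ord (aff (P j)) (u j) G)
    (hfew : ∀ W, (∀ i, u i ≤ W) → 144 * W ^ 2 ≤ max (∑ i, u i ^ 2) (e ^ 2) →
      (16 * ((Finset.univ.image u).erase 0).card + 8) * W ^ 2 ≤ max (∑ i, u i ^ 2) (e ^ 2) →
      ∑ i, u i ^ 2 ≤ e ^ 2) :
    ∑ i, x i * (u i : ℝ) ≤ c * e := by
  classical
  by_contra hcon
  push Not at hcon
  obtain ⟨t, y, T, μ, U, R, hRM, hT, ht0, hy0, hT0, hμ0, hR576, hURT, hμTy, hyR, hU2lt, hdev, hsp⟩ :=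
    core hP hM hx0 hxM hc hsq hG hGe hGo hfew hcon
  obtain ⟨X, hXd⟩ : ∃ X, X = c ^ 2 - ∑ i, x i ^ 2 := ⟨_, rfl⟩
  have hX : 0 ≤ X := by rw [hXd]; linarith
  rw [← hXd] at h hdev
  have htX0 : 0 ≤ t ^ 2 * X := by positivity
  have hS0 : 0 ≤ ∑ i, ((u i : ℝ) - t * x i) ^ 2 := Finset.sum_nonneg fun i _ => sq_nonneg _
  have hM2 : 0 < M ^ 2 := by positivity
  have hRr : 16 * (r : ℝ) + 128 ≤ R := by
    have h1 : (16 * (r : ℝ) + 128) * M ^ 2 ≤ R * M ^ 2 := by rw [hRM]; exact hcr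
    exact le_of_mul_le_mul_right h1 hM2
  -- the number of the values
  obtain ⟨N, hN1, hN2⟩ := count (r := r) (a := a) (b := b) ht0 hy0 hab hxI
    (by linarith) (u := u) hsp
  obtain ⟨Λ, hΛ⟩ : ∃ Λ, Λ = ∑ j, (b j - a j) := ⟨_, rfl⟩
  rw [← hΛ] at h hN2
  have hΛ0 : 0 ≤ Λ := by rw [hΛ]; exact Finset.sum_nonneg fun j _ => sub_nonneg.2 (hab j)
  refine last hy0 hT0 hR576 hRr hURT hμ0 hμTy hyR hN1 hU2lt hN2 ?_
  -- the length
  have hB : 0 ≤ R - 16 * r - 128 := by linarith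
  have h1 : 400 * Λ ^ 2 ≤ (R - 16 * r - 128) ^ 2 * X := by
    have e1 : c ^ 2 - (16 * r + 128) * M ^ 2 = (R - 16 * r - 128) * M ^ 2 := by
      rw [← hRM]; ring
    rw [e1] at h
    have e2 : 400 * M ^ 4 * Λ ^ 2 = M ^ 4 * (400 * Λ ^ 2) := by ring
    have e3 : ((R - 16 * r - 128) * M ^ 2) ^ 2 * X = M ^ 4 * ((R - 16 * r - 128) ^ 2 * X) := by
      ring
    rw [e2, e3] at h
    exact le_of_mul_le_mul_left h (by positivity)
  have h2 : (20 * (t * Λ)) ^ 2 ≤ ((R - 16 * r - 128) * y) ^ 2 := by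
    have h3 : t ^ 2 * (400 * Λ ^ 2) ≤ t ^ 2 * ((R - 16 * r - 128) ^ 2 * X) :=
      mul_le_mul_of_nonneg_left h1 (sq_nonneg _)
    have h4 : t ^ 2 * X ≤ y ^ 2 := by linarith
    have h5 : (R - 16 * r - 128) ^ 2 * (t ^ 2 * X) ≤ (R - 16 * r - 128) ^ 2 * y ^ 2 :=
      mul_le_mul_of_nonneg_left h4 (sq_nonneg _)
    have e1 : (20 * (t * Λ)) ^ 2 = t ^ 2 * (400 * Λ ^ 2) := by ring
    have e2 : ((R - 16 * r - 128) * y) ^ 2 = (R - 16 * r - 128) ^ 2 * y ^ 2 := by ring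
    have e3 : t ^ 2 * ((R - 16 * r - 128) ^ 2 * X) = (R - 16 * r - 128) ^ 2 * (t ^ 2 * X) := by
      ring
    rw [e1, e2]
    linarith
  exact (abs_le_of_sq_le_sq' h2 (mul_nonneg hB hy0.le)).2

/-- The inequality for irreducible curves: the distance from vectors with few coefficients. -/
theorem nef_few {s r : ℕ} {P : Fin (s + 4) → Fin 2 → ℂ}
    (hP : AlgebraicIndependent ℚ (fun ij : Fin (s + 4) × Fin 2 => P ij.1 ij.2))
    {x x' : Fin (s + 4) → ℝ} {c M : ℝ} (hM : 0 < M) (hx0 : ∀ i, 0 ≤ x i)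
    (hxM : ∀ i, x i ≤ M) (hr : (Finset.univ.image x').card ≤ r)
    (hc : 24 * M ≤ c) (hcr : (32 * r + 256) * M ^ 2 ≤ c ^ 2) (hsq : ∑ i, x i ^ 2 ≤ c ^ 2)
    (h : 150000 * r ^ 2 * M ^ 6 * ∑ i, (x i - x' i) ^ 2 ≤ c ^ 6 * (c ^ 2 - ∑ i, x i ^ 2))
    {G : MvPolynomial (Fin 3) ℂ} {e : ℕ} {u : Fin (s + 4) → ℕ} (hG : Irreducible G)
    (hGe : G.IsHomogeneous e) (hGo : ∀ j, Ord (aff (P j)) (u j) G)
    (hfew : ∀ W, (∀ i, u i ≤ W) → 144 * W ^ 2 ≤ max (∑ i, u i ^ 2) (e ^ 2) →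
      (16 * ((Finset.univ.image u).erase 0).card + 8) * W ^ 2 ≤ max (∑ i, u i ^ 2) (e ^ 2) →
      ∑ i, u i ^ 2 ≤ e ^ 2) :
    ∑ i, x i * (u i : ℝ) ≤ c * e := by
  classical
  by_contra hcon
  push Not at hcon
  obtain ⟨t, y, T, μ, U, R, hRM, hT, ht0, hy0, hT0, hμ0, hR576, hURT, hμTy, hyR, hU2lt, hdev, hsp⟩ :=
    core hP hM hx0 hxM hc hsq hG hGe hGo hfew hcon
  obtain ⟨X, hXd⟩ : ∃ X, X = c ^ 2 - ∑ i, x i ^ 2 := ⟨_, rfl⟩
  have hX : 0 ≤ X := by rw [hXd]; linarith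
  rw [← hXd] at h hdev
  have htX0 : 0 ≤ t ^ 2 * X := by positivity
  have hS0 : 0 ≤ ∑ i, ((u i : ℝ) - t * x i) ^ 2 := Finset.sum_nonneg fun i _ => sq_nonneg _
  have hM2 : 0 < M ^ 2 := by positivity
  have hRr : 32 * (r : ℝ) + 256 ≤ R := by
    have h1 : (32 * (r : ℝ) + 256) * M ^ 2 ≤ R * M ^ 2 := by rw [hRM]; exact hcr
    exact le_of_mul_le_mul_right h1 hM2
  have hr0 : 0 < r := by
    rcases Nat.eq_zero_or_pos r with h0 | h0
    · exfalso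
      rw [h0, Nat.le_zero, Finset.card_eq_zero] at hr
      have : x' 0 ∈ Finset.univ.image x' := Finset.mem_image_of_mem _ (Finset.mem_univ _)
      rw [hr] at this
      exact absurd this (Finset.notMem_empty _)
    · exact h0
  have hr' : (Finset.univ.image fun i => t * x' i).card ≤ r := by
    have h1 : (Finset.univ.image fun i => t * x' i) =
        (Finset.univ.image x').image fun w => t * w := by
      rw [Finset.image_image]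
      rfl
    rw [h1]
    exact Finset.card_image_le.trans hr
  have h1 := sq_group hy0 hr0 hr' hsp rfl
  obtain ⟨δ, hδ⟩ : ∃ δ, δ = ∑ i, (x i - x' i) ^ 2 := ⟨_, rfl⟩
  rw [← hδ] at h
  have h2 : ∑ i, ((u i : ℝ) - t * x' i) ^ 2 ≤
      5 * ∑ i, ((u i : ℝ) - t * x i) ^ 2 + 5 / 4 * (t ^ 2 * δ) := by
    rw [hδ, Finset.mul_sum, Finset.mul_sum, Finset.mul_sum, ← Finset.sum_add_distrib]
    refine Finset.sum_le_sum fun i _ => ?_
    nlinarith [sq_nonneg (4 * ((u i : ℝ) - t * x i) - t * (x i - x' i))]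
  refine last2 (δ := δ) (X := X) (t := t) hy0 hT0 hR576 hr0 hRr hURT hμ0 hμTy hyR hU2lt ?_
    (by linarith) (h1.trans (h2.trans (by linarith)))
  have e1 : c ^ 6 * X = M ^ 6 * (R ^ 3 * X) := by
    have : c ^ 6 = (c ^ 2) ^ 3 := by ring
    rw [this, ← hRM]
    ring
  have e2 : 150000 * (r : ℝ) ^ 2 * M ^ 6 * δ = M ^ 6 * (150000 * (r : ℝ) ^ 2 * δ) := by ring
  rw [e1, e2] at h
  exact le_of_mul_le_mul_left h (by positivity)

end Pool.Agent.K4H62.CN
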