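import Mathlib

set_option autoImplicit false

/-!
# The arithmetic of the nef cone near the Nagata rays
-/

namespace Pool.Agent.K4H62.CN

/-- from squares -/
theorem le_of_sq {a b : ℝ} (hb : 0 ≤ b) (h : a ^ 2 ≤ b ^ 2) : a ≤ b :=
  (abs_le_of_sq_le_sq' h hb).2

/-- curves of small degree -/
theorem numSmall {S e k q ρ c t δ : ℝ} (ht : 10 ≤ t) (hS0 : 0 ≤ S) (hS : S ≤ t ^ 2) (hk : k ≤ S)
    (hδ : 1 ≤ δ) (hδe : t * e ^ 2 = S ^ 2 + δ) (hq : q ^ 2 = k + δ / t) (hq0 : 0 ≤ q)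
    (hρ0 : 0 ≤ ρ) (hρ : 4 * t ^ 3 * ρ ≤ 1) (hc : t ≤ c ^ 2) (hce : 0 ≤ c * e) :
    S + ρ * q ≤ c * e := by
  have ht0 : 0 < t := by linarith
  have ht2 : 100 ≤ t ^ 2 := by nlinarith
  have ht3 : 1000 ≤ t ^ 3 := by nlinarith
  have hδt : δ / t ≤ δ / 10 := div_le_div_of_nonneg_left (by linarith) (by norm_num) ht
  have hq2 : q ^ 2 ≤ 1.01 * t ^ 2 * δ := by
    have h1 : t ^ 2 * 1 ≤ t ^ 2 * δ := mul_le_mul_of_nonneg_left hδ (by positivity)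
    have h2 : 100 * δ ≤ t ^ 2 * δ := mul_le_mul_of_nonneg_right ht2 (by linarith)
    rw [hq]
    linarith
  have hq3 : q ≤ 1.01 * t * δ := by
    refine le_of_sq (by positivity) (hq2.trans ?_)
    have h1 : t ^ 2 * δ * 1 ≤ t ^ 2 * δ * δ := mul_le_mul_of_nonneg_left hδ (by positivity)
    have e1 : (1.01 * t * δ) ^ 2 = 1.0201 * (t ^ 2 * δ * δ) := by ring
    have h2 : 0 ≤ t ^ 2 * δ := by positivity
    rw [e1]
    linarith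
  refine le_of_sq hce ?_
  have e1 : (S + ρ * q) ^ 2 = S ^ 2 + 2 * (S * (ρ * q)) + ρ ^ 2 * q ^ 2 := by ring
  have e2 : (c * e) ^ 2 = c ^ 2 * e ^ 2 := by ring
  have h1 : t * e ^ 2 ≤ c ^ 2 * e ^ 2 := mul_le_mul_of_nonneg_right hc (sq_nonneg e)
  have h2 : S * (ρ * q) ≤ t ^ 2 * (ρ * (1.01 * t * δ)) :=
    mul_le_mul hS (mul_le_mul_of_nonneg_left hq3 hρ0) (by positivity) (by positivity)
  have h3 : t ^ 2 * (ρ * (1.01 * t * δ)) = 1.01 / 4 * δ * (4 * t ^ 3 * ρ) := by ring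
  have h4 : 1.01 / 4 * δ * (4 * t ^ 3 * ρ) ≤ 1.01 / 4 * δ * 1 :=
    mul_le_mul_of_nonneg_left hρ (by positivity)
  have h5 : ρ ^ 2 * q ^ 2 ≤ ρ ^ 2 * (1.01 * t ^ 2 * δ) := mul_le_mul_of_nonneg_left hq2 (sq_nonneg _)
  have h6 : t * ρ ≤ 1 / 4 := by
    have h7 : 4 * t * ρ * 1 ≤ 4 * t * ρ * t ^ 2 :=
      mul_le_mul_of_nonneg_left (by linarith) (by positivity)
    have e3 : 4 * t * ρ * t ^ 2 = 4 * t ^ 3 * ρ := by ring
    linarith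
  have h7 : (t * ρ) ^ 2 ≤ (1 / 4) ^ 2 := pow_le_pow_left₀ (by positivity) h6 2
  have h8 : ρ ^ 2 * (1.01 * t ^ 2 * δ) = 1.01 * δ * (t * ρ) ^ 2 := by ring
  have h9 : 1.01 * δ * (t * ρ) ^ 2 ≤ 1.01 * δ * (1 / 4) ^ 2 :=
    mul_le_mul_of_nonneg_left h7 (by positivity)
  rw [e1, e2]
  linarith

/-- the Cauchy-Schwarz inequality -/
theorem numCS {S e k q ρ c t γ : ℝ} (ht : 0 < t) (hγ : 0 < γ)
    (hk : k * (1 + γ) ≤ q ^ 2) (he : t * e ^ 2 = S ^ 2 + t * (q ^ 2 - k))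
    (hc : (t + ρ ^ 2) * γ + ρ ^ 2 ≤ c ^ 2 * γ) (hce : 0 ≤ c * e) :
    S + ρ * q ≤ c * e := by
  refine le_of_sq hce ?_
  have e2 : (c * e) ^ 2 = c ^ 2 * e ^ 2 := by ring
  rw [e2]
  -- `e ^ 2 ≥ S ^ 2 / t + γ q ^ 2 / (1 + γ)`
  have h1 : (1 + γ) * (t * e ^ 2) ≥ (1 + γ) * S ^ 2 + t * γ * q ^ 2 := by
    rw [he]
    nlinarith
  have h2 : c ^ 2 * γ * ((1 + γ) * (t * e ^ 2)) ≥
      ((t + ρ ^ 2) * γ + ρ ^ 2) * ((1 + γ) * S ^ 2 + t * γ * q ^ 2) := by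
    refine mul_le_mul hc h1 ?_ ?_
    · positivity
    · have := sq_nonneg c
      positivity
  have h3 : ((t + ρ ^ 2) * γ + ρ ^ 2) * ((1 + γ) * S ^ 2 + t * γ * q ^ 2) =
      (γ * (1 + γ) * t) * (S + ρ * q) ^ 2 + (t * γ * q - (1 + γ) * ρ * S) ^ 2 := by
    ring
  have h4 : (γ * (1 + γ) * t) * (S + ρ * q) ^ 2 ≤ (γ * (1 + γ) * t) * (c ^ 2 * e ^ 2) := by
    have e3 : c ^ 2 * γ * ((1 + γ) * (t * e ^ 2)) = (γ * (1 + γ) * t) * (c ^ 2 * e ^ 2) := by ring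
    have := sq_nonneg (t * γ * q - (1 + γ) * ρ * S)
    linarith
  exact le_of_mul_le_mul_left h4 (by positivity)

/-- curves of large degree, all multiplicities on `T` positive -/
theorem numLarge {S e k q ρ c t δ X : ℝ} (ht : 10 ≤ t) (hS : t ^ 2 ≤ S) (hk : k * t ≤ S)
    (hδ : 1 ≤ δ) (hδe : t * e ^ 2 = S ^ 2 + δ) (hq : q ^ 2 = k + δ / t) (hq0 : 0 ≤ q)
    (hρ0 : 0 ≤ ρ) (hρ : 4 * t ^ 3 * ρ ≤ 1) (hX : X = c ^ 2 - t - ρ ^ 2)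
    (hX3 : 3 * t * ρ ^ 4 ≤ X ^ 3) (hX0 : 0 ≤ X) (hce : 0 ≤ c * e) :
    S + ρ * q ≤ c * e := by
  have ht0 : 0 < t := by linarith
  have ht2 : 100 ≤ t ^ 2 := by nlinarith
  have ht3 : 1000 ≤ t ^ 3 := by nlinarith
  have hS0 : 0 < S := by linarith
  have hρ1 : ρ ≤ 1 / 4000 := by
    have h1 : 4000 * ρ ≤ 4 * t ^ 3 * ρ := mul_le_mul_of_nonneg_right (by linarith) hρ0
    linarith
  -- `4 ρ ^ 2 ≤ X`
  have hX4 : 4 * ρ ^ 2 ≤ X := by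
    by_contra hcon
    push Not at hcon
    have h1 : X ^ 3 ≤ (4 * ρ ^ 2) ^ 3 := pow_le_pow_left₀ hX0 hcon.le 3
    have hρpos : 0 < ρ := by
      rcases hρ0.eq_or_lt with h0 | h0
      · rw [← h0] at hcon
        norm_num at hcon
        linarith
      · exact h0
    have h2 : ρ ^ 2 ≤ (1 / 4000) ^ 2 := pow_le_pow_left₀ hρ0 hρ1 2
    have h3 : 0 < ρ ^ 4 := by positivity
    have h4 : ρ ^ 4 * (64 * ρ ^ 2) ≤ ρ ^ 4 * (64 * (1 / 4000) ^ 2) :=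
      mul_le_mul_of_nonneg_left (by linarith) h3.le
    have h5 : 30 * ρ ^ 4 ≤ 3 * t * ρ ^ 4 := mul_le_mul_of_nonneg_right (by linarith) h3.le
    have e1 : (4 * ρ ^ 2) ^ 3 = ρ ^ 4 * (64 * ρ ^ 2) := by ring
    rw [e1] at h1
    nlinarith
  refine le_of_sq hce ?_
  have e1 : (S + ρ * q) ^ 2 = S ^ 2 + 2 * (S * ρ * q) + ρ ^ 2 * q ^ 2 := by ring
  have e2 : (c * e) ^ 2 = t * e ^ 2 + ρ ^ 2 * e ^ 2 + X * e ^ 2 := by rw [hX]; ring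
  -- `q ^ 2 ≤ e ^ 2`
  have hqe : q ^ 2 ≤ e ^ 2 := by
    have h1 : t * q ^ 2 ≤ t * e ^ 2 := by
      rw [hδe, hq]
      have e3 : t * (k + δ / t) = k * t + δ := by field_simp
      rw [e3]
      nlinarith
    exact le_of_mul_le_mul_left h1 ht0
  have hρq : ρ ^ 2 * q ^ 2 ≤ ρ ^ 2 * e ^ 2 := mul_le_mul_of_nonneg_left hqe (sq_nonneg _)
  -- the main part
  obtain ⟨A, hA⟩ : ∃ A, A = X * S ^ 2 / t := ⟨_, rfl⟩
  have hA0 : 0 ≤ A := by rw [hA]; positivity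
  have hAe : A ≤ X * e ^ 2 := by
    rw [hA, div_le_iff₀ ht0]
    have h1 : X * e ^ 2 * t = X * (t * e ^ 2) := by ring
    rw [h1, hδe]
    have := mul_nonneg hX0 (by linarith : 0 ≤ δ)
    linarith
  have hmain : 2 * (S * ρ * q) ≤ δ + A := by
    refine le_of_sq (by linarith) ?_
    have h1 : (2 * (S * ρ * q)) ^ 2 = 4 * S ^ 2 * ρ ^ 2 * q ^ 2 := by ring
    have h2 : q ^ 2 ≤ (S + δ) / t := by
      rw [hq, le_div_iff₀ ht0]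
      have e3 : (k + δ / t) * t = k * t + δ := by field_simp
      rw [e3]
      linarith
    have h3 : 4 * S ^ 2 * ρ ^ 2 * q ^ 2 ≤ 4 * S ^ 2 * ρ ^ 2 * ((S + δ) / t) :=
      mul_le_mul_of_nonneg_left h2 (by positivity)
    have e4 : 4 * S ^ 2 * ρ ^ 2 * ((S + δ) / t) =
        4 * (S ^ 3 * ρ ^ 2 / t) + 4 * ρ ^ 2 * (S ^ 2 / t) * δ := by
      field_simp
    have h4 : 4 * ρ ^ 2 * (S ^ 2 / t) * δ ≤ A * δ := by
      have h5 : 4 * ρ ^ 2 * (S ^ 2 / t) ≤ X * (S ^ 2 / t) :=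
        mul_le_mul_of_nonneg_right hX4 (by positivity)
      have e5 : X * (S ^ 2 / t) = A := by rw [hA]; ring
      rw [e5] at h5
      exact mul_le_mul_of_nonneg_right h5 (by linarith)
    -- the cubic part
    obtain ⟨B, hB⟩ : ∃ B, B = S ^ 3 * ρ ^ 2 / t := ⟨_, rfl⟩
    have hB0 : 0 ≤ B := by rw [hB]; positivity
    have hBA : 3 * B ^ 2 ≤ A ^ 3 := by
      have e6 : 3 * B ^ 2 = 3 * t * ρ ^ 4 * (S ^ 6 / t ^ 3) := by
        rw [hB]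
        field_simp
      have e7 : A ^ 3 = X ^ 3 * (S ^ 6 / t ^ 3) := by
        rw [hA]
        field_simp
      rw [e6, e7]
      exact mul_le_mul_of_nonneg_right hX3 (by positivity)
    have h5 : 4 * B ≤ 1 + A + A ^ 2 := by
      refine le_of_sq (by positivity) ?_
      have e8 : (4 * B) ^ 2 = 16 / 3 * (3 * B ^ 2) := by ring
      rw [e8]
      have h6 : 16 / 3 * A ^ 3 ≤ (1 + A + A ^ 2) ^ 2 := by
        have e9 : (1 + A + A ^ 2) ^ 2 = 16 / 3 * A ^ 3 +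
            ((A ^ 2 - 5 / 3 * A) ^ 2 + 2 / 9 * A ^ 2 + 2 * A + 1) := by ring
        have h7 := sq_nonneg (A ^ 2 - 5 / 3 * A)
        have h8 := sq_nonneg A
        rw [e9]
        linarith
      linarith
    rw [h1]
    refine h3.trans ?_
    rw [e4, ← hB]
    have h6 : δ ^ 2 + δ * A + A ^ 2 ≥ 1 + A + A ^ 2 := by
      have h7 : 0 ≤ (δ - 1) * A := mul_nonneg (by linarith) hA0
      have h8 : 0 ≤ (δ - 1) * (δ + 1) := mul_nonneg (by linarith) (by linarith)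
      linarith
    have e9 : (δ + A) ^ 2 = δ ^ 2 + 2 * (A * δ) + A ^ 2 := by ring
    rw [e9]
    linarith
  rw [e1, e2, hδe]
  linarith

/-- curves of large degree, some multiplicity on `T` equal to zero -/
theorem numZero {S e k q ρ c t δ : ℝ} (ht : 10 ≤ t) (hS : t ^ 2 ≤ S) (hk0 : 0 ≤ k) (hk : k ≤ S)
    (hδ : 1 ≤ δ) (hδe : t * e ^ 2 = S ^ 2 + δ) (hq : q ^ 2 = k + δ / t) (hq0 : 0 ≤ q)
    (hkq : t * k ≤ q ^ 2) (hSq : S ^ 2 ≤ t ^ 2 * q ^ 2)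
    (hρ0 : 0 ≤ ρ) (hρ : 4 * t ^ 3 * ρ ≤ 1) (hc : t + ρ ^ 2 ≤ c ^ 2) (hce : 0 ≤ c * e) :
    S + ρ * q ≤ c * e := by
  have ht0 : 0 < t := by linarith
  have ht2 : 100 ≤ t ^ 2 := by nlinarith
  have ht3 : 1000 ≤ t ^ 3 := by nlinarith
  have hS0 : 0 < S := by linarith
  refine le_of_sq hce ?_
  have e1 : (S + ρ * q) ^ 2 = S ^ 2 + 2 * (S * ρ * q) + ρ ^ 2 * q ^ 2 := by ring
  have e2 : (c * e) ^ 2 = c ^ 2 * e ^ 2 := by ring
  have h1 : (t + ρ ^ 2) * e ^ 2 ≤ c ^ 2 * e ^ 2 := mul_le_mul_of_nonneg_right hc (sq_nonneg e)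
  have hqe : q ^ 2 ≤ e ^ 2 := by
    have h1 : t * q ^ 2 ≤ t * e ^ 2 := by
      rw [hδe, hq]
      have e3 : t * (k + δ / t) = k * t + δ := by field_simp
      rw [e3]
      nlinarith
    exact le_of_mul_le_mul_left h1 ht0
  have hρq : ρ ^ 2 * q ^ 2 ≤ ρ ^ 2 * e ^ 2 := mul_le_mul_of_nonneg_left hqe (sq_nonneg _)
  have hSq' : S ≤ t * q := le_of_sq (by positivity) (by rw [mul_pow]; exact hSq)
  -- `t q ^ 2 ≤ 2 δ`
  have h2 : t * q ^ 2 ≤ 2 * δ := by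
    have e3 : t * q ^ 2 = t * k + δ := by
      rw [hq]
      field_simp
    have h3 : t * q ^ 2 ≥ 10 * q ^ 2 := by nlinarith [sq_nonneg q]
    nlinarith
  have h3 : S * ρ * q ≤ t * q * ρ * q := by
    refine mul_le_mul_of_nonneg_right (mul_le_mul_of_nonneg_right hSq' hρ0) hq0
  have h4 : t * q * ρ * q ≤ ρ * (2 * δ) := by
    have e3 : t * q * ρ * q = ρ * (t * q ^ 2) := by ring
    rw [e3]
    exact mul_le_mul_of_nonneg_left h2 hρ0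
  have hρ1 : ρ ≤ 1 / 4000 := by
    have h1 : 4000 * ρ ≤ 4 * t ^ 3 * ρ := mul_le_mul_of_nonneg_right (by linarith) hρ0
    linarith
  have h5 : ρ * (2 * δ) ≤ 1 / 4000 * (2 * δ) := mul_le_mul_of_nonneg_right hρ1 (by linarith)
  rw [e1, e2]
  have h6 : (t + ρ ^ 2) * e ^ 2 = S ^ 2 + δ + ρ ^ 2 * e ^ 2 := by
    rw [← hδe]
    ring
  linarith

end Pool.Agent.K4H62.CN
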