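import Pool.Agent.Y939.XN.Xu
import Pool.Agent.TH142.NU.Main
import Pool.Agent.TH885.NW.Exp2
import Pool.Agent.TH718.UG.EmpG
import Pool.Agent.TH718.UG.Plane
import Pool.Agent.W609.CR.All
import Pool.Agent.TH167.SH.Conv
import Pool.Agent.K4H62.CN.NagNum

set_option autoImplicit false

/-!
# Curves near the Nagata rays
-/

namespace Pool.Agent.K4H62.CN

open MvPolynomial Pool.Agent.W609 Pool.Agent.W609.CR Pool.Agent.TH167 Pool.Agent.TH167.SH

/-- the distance of the multiplicities from the line of the Nagata class of `T` -/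
noncomputable def vari {s : ℕ} (T : Finset (Fin s)) (u : Fin s → ℕ) : ℝ :=
  ∑ i, (u i : ℝ) ^ 2 - (∑ i ∈ T, (u i : ℝ)) ^ 2 / T.card

/-- the second term of the expansion -/
noncomputable def gam (t : ℝ) : ℝ := max (t - 11 / 3 * √t - 9 / 4) (2 - 6 / √t)

theorem gam_le {t : ℝ} (ht : 12 ≤ t) : 0 < gam t ∧ gam t + 1 ≤ t := by
  have h1 : 3 < √t := by
    rw [show (3 : ℝ) = √9 by rw [show (9 : ℝ) = 3 ^ 2 by norm_num]; exact (Real.sqrt_sq (by norm_num)).symm]
    exact Real.sqrt_lt_sqrt (by norm_num) (by linarith)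
  have h2 : 6 / √t < 2 := by
    rw [div_lt_iff₀ (by linarith)]
    linarith
  have h3 : 0 ≤ 6 / √t := by positivity
  constructor
  · exact lt_of_lt_of_le (by linarith) (le_max_right _ _)
  · have h4 : gam t ≤ t - 1 := max_le (by linarith) (by linarith)
    linarith

/-- The data of an irreducible curve of negative self-intersection. -/
theorem neg_data {s : ℕ} {P : Fin s → Fin 2 → ℂ}
    (hP : AlgebraicIndependent ℚ (fun ij : Fin s × Fin 2 => P ij.1 ij.2))
    {T : Finset (Fin s)} (hT : 10 ≤ T.card)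
    {G : MvPolynomial (Fin 3) ℂ} {e k : ℕ} {u : Fin s → ℕ} (hG : Irreducible G)
    (hGe : G.IsHomogeneous e) (hGo : ∀ j, Ord (aff (P j)) (u j) G)
    (hk : ∑ i, u i ^ 2 = e ^ 2 + k) (hS : 0 < ∑ i ∈ T, u i) :
    -- the curve meets the Nagata class positively
    (1 : ℝ) ≤ T.card * (e : ℝ) ^ 2 - (∑ i ∈ T, (u i : ℝ)) ^ 2 ∧
    -- the inequality of Xu and Ein-Lazarsfeld
    (k : ℝ) ≤ ∑ i ∈ T, (u i : ℝ) ∧
    ((k : ℝ) * T.card ≤ ∑ i ∈ T, (u i : ℝ) ∨
      ((∑ i ∈ T, (u i : ℝ)) ^ 2 ≤ (T.card : ℝ) ^ 2 * vari T u ∧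
        (∑ i ∈ T, (u i : ℝ)) * k ≤ T.card * vari T u)) ∧
    -- the second term of the expansion
    (12 ≤ T.card → (T.card : ℝ) ^ 2 ≤ ∑ i ∈ T, (u i : ℝ) →
      ∑ i ∈ T, (u i : ℝ) + gam T.card / 2 ≤ √(T.card : ℝ) * e) := by
  classical
  obtain ⟨S, hSd⟩ : ∃ S : ℝ, S = ∑ i ∈ T, (u i : ℝ) := ⟨_, rfl⟩
  have hSn : S = ((∑ i ∈ T, u i : ℕ) : ℝ) := by rw [hSd]; push_cast; rfl
  have hS1 : 1 ≤ S := by rw [hSn]; exact_mod_cast hS
  have ht : (10 : ℝ) ≤ T.card := by exact_mod_cast hT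
  have ht0 : (0 : ℝ) < T.card := by linarith
  have hm : ∀ i, G ∈ (Ideal.span ({MvPolynomial.X 0 - MvPolynomial.C (P i 0) * MvPolynomial.X 2,
      MvPolynomial.X 1 - MvPolynomial.C (P i 1) * MvPolynomial.X 2} :
        Set (MvPolynomial (Fin 3) ℂ))) ^ (u i) := fun i =>
    (t_link ℂ (P i) (u i) G e hGe).1 (hGo i).1
  have hU : ∑ i, (u i : ℝ) ^ 2 = (e : ℝ) ^ 2 + k := by
    have : ((∑ i, u i ^ 2 : ℕ) : ℝ) = ((e ^ 2 + k : ℕ) : ℝ) := by rw [hk]
    push_cast at this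
    exact this
  have hxu : ∀ i, 1 ≤ u i → (k : ℝ) ≤ u i := by
    intro i hi
    have h1 := Pool.Agent.Y939.XN.xu hP hG hGe hGo (k := i) hi
    have h2 : k ≤ u i := by omega
    exact_mod_cast h2
  rw [← hSd]
  have hvari : vari T u = ∑ i, (u i : ℝ) ^ 2 - S ^ 2 / T.card := by
    unfold vari
    rw [← hSd]
  refine ⟨?_, ?_, ?_, ?_⟩
  · -- Nagata
    have h1 := (Pool.Agent.TH142.NU.main hP hG.ne_zero hGe hm T hT).1 (by rw [← hSd]; linarith)
    rw [Pool.Agent.TH142.NU.var_eq T u (by omega), ← hSd] at h1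
    have h2 := Finset.sum_add_sum_compl T fun i => (u i : ℝ) ^ 2
    have h3 : 0 < (e : ℝ) ^ 2 - S ^ 2 / T.card := by linarith
    have h4 : 0 < (T.card : ℝ) * (e : ℝ) ^ 2 - S ^ 2 := by
      have h5 := mul_pos ht0 h3
      have e1 : (T.card : ℝ) * ((e : ℝ) ^ 2 - S ^ 2 / T.card) = T.card * (e : ℝ) ^ 2 - S ^ 2 := by
        field_simp
      rwa [e1] at h5
    rw [hSn] at h4 ⊢
    have h5 : (∑ i ∈ T, u i) ^ 2 < T.card * e ^ 2 := by
      have h6 : (((∑ i ∈ T, u i) ^ 2 : ℕ) : ℝ) < ((T.card * e ^ 2 : ℕ) : ℝ) := by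
        push_cast at h4 ⊢
        linarith
      exact_mod_cast h6
    have h6 : (∑ i ∈ T, u i) ^ 2 + 1 ≤ T.card * e ^ 2 := h5
    have h7 : (((∑ i ∈ T, u i) ^ 2 + 1 : ℕ) : ℝ) ≤ ((T.card * e ^ 2 : ℕ) : ℝ) := by
      exact_mod_cast h6
    push_cast at h7 ⊢
    linarith
  · -- `k ≤ S`
    obtain ⟨i, hi, hi1⟩ : ∃ i ∈ T, 1 ≤ u i := by
      by_contra hcon
      push Not at hcon
      have : ∑ i ∈ T, u i = 0 := Finset.sum_eq_zero fun i hi => by
        have := hcon i hi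
        omega
      omega
    have h1 := Finset.single_le_sum (f := fun i => (u i : ℝ)) (fun i _ => Nat.cast_nonneg _) hi
    rw [← hSd] at h1
    exact (hxu i hi1).trans h1
  · by_cases hall : ∀ i ∈ T, 1 ≤ u i
    · left
      have h1 : ∑ _i ∈ T, (k : ℝ) ≤ ∑ i ∈ T, (u i : ℝ) :=
        Finset.sum_le_sum fun i hi => hxu i (hall i hi)
      rw [Finset.sum_const, nsmul_eq_mul, ← hSd] at h1
      linarith
    · right
      obtain ⟨T', hT'⟩ : ∃ T', T' = T.filter fun i => 1 ≤ u i := ⟨_, rfl⟩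
      have hcard : T'.card + 1 ≤ T.card := by
        push Not at hall
        obtain ⟨i, hi, hi1⟩ := hall
        have : T' ⊂ T := by
          rw [Finset.ssubset_iff_of_subset (by rw [hT']; exact Finset.filter_subset _ _)]
          refine ⟨i, hi, fun h => ?_⟩
          rw [hT', Finset.mem_filter] at h
          omega
        exact Finset.card_lt_card this
      have hz : ∀ i ∈ T, i ∉ T' → u i = 0 := by
        intro i hi hi'
        by_contra h0
        exact hi' (by rw [hT']; exact Finset.mem_filter.2 ⟨hi, by omega⟩)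
      have hsub : T' ⊆ T := by rw [hT']; exact Finset.filter_subset _ _
      have hS' : S = ∑ i ∈ T', (u i : ℝ) := by
        rw [hSd]
        exact (Finset.sum_subset hsub fun i hi hi' => by rw [hz i hi hi', Nat.cast_zero]).symm
      obtain ⟨τ, hτ⟩ : ∃ τ : ℝ, τ = T'.card := ⟨_, rfl⟩
      have hτt : τ + 1 ≤ T.card := by rw [hτ]; exact_mod_cast hcard
      have hkτ : k * τ ≤ S := by
        have h1 : ∑ _i ∈ T', (k : ℝ) ≤ ∑ i ∈ T', (u i : ℝ) :=
          Finset.sum_le_sum fun i hi => hxu i (by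
            rw [hT'] at hi
            exact (Finset.mem_filter.1 hi).2)
        rw [Finset.sum_const, nsmul_eq_mul, ← hS', ← hτ] at h1
        linarith
      have hτ0 : 0 < τ := by
        rw [hτ]
        rcases Nat.eq_zero_or_pos T'.card with h0 | h0
        · exfalso
          rw [Finset.card_eq_zero] at h0
          rw [h0, Finset.sum_empty] at hS'
          linarith
        · exact_mod_cast h0
      have hcs : S ^ 2 ≤ τ * ∑ i ∈ T', (u i : ℝ) ^ 2 := by
        have h1 := sq_sum_le_card_mul_sum_sq (s := T') (f := fun i => (u i : ℝ))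
        rwa [← hS', ← hτ] at h1
      have hle : ∑ i ∈ T', (u i : ℝ) ^ 2 ≤ ∑ i, (u i : ℝ) ^ 2 :=
        Finset.sum_le_sum_of_subset_of_nonneg (Finset.subset_univ _) fun i _ _ => sq_nonneg _
      obtain ⟨Q, hQ⟩ : ∃ Q, Q = vari T u := ⟨_, rfl⟩
      rw [← hQ]
      rw [← hQ] at hvari
      obtain ⟨U, hUd⟩ : ∃ U, U = ∑ i, (u i : ℝ) ^ 2 := ⟨_, rfl⟩
      rw [← hUd] at hvari hle
      obtain ⟨t, htd⟩ : ∃ t : ℝ, t = T.card := ⟨_, rfl⟩
      rw [← htd] at hvari hτt ht ht0 ⊢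
      have h1 : S ^ 2 ≤ τ * U := hcs.trans (mul_le_mul_of_nonneg_left hle hτ0.le)
      have h2 : t * Q = t * U - S ^ 2 := by
        rw [hvari]
        field_simp
      -- `τ t Q ≥ S ^ 2`
      have h3 : S ^ 2 ≤ τ * (t * Q) := by
        rw [h2]
        have h4 : S ^ 2 * (t - τ) ≥ S ^ 2 * 1 :=
          mul_le_mul_of_nonneg_left (by linarith) (sq_nonneg _)
        have h5 : t * S ^ 2 ≤ t * (τ * U) := mul_le_mul_of_nonneg_left h1 ht0.le
        nlinarith
      have hQ0 : 0 ≤ t * Q := by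
        by_contra hcon
        push Not at hcon
        have : τ * (t * Q) < 0 := mul_neg_of_pos_of_neg hτ0 hcon
        have := sq_nonneg S
        linarith
      constructor
      · have h4 : τ * (t * Q) ≤ t * (t * Q) := mul_le_mul_of_nonneg_right (by linarith) hQ0
        have e1 : t * (t * Q) = t ^ 2 * Q := by ring
        linarith
      · have h4 : S * (k * τ) ≤ S * S := mul_le_mul_of_nonneg_left hkτ (by linarith)
        have h5 : τ * (S * k) ≤ τ * (t * Q) := by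
          have e1 : τ * (S * k) = S * (k * τ) := by ring
          have e2 : S * S = S ^ 2 := by ring
          linarith
        exact le_of_mul_le_mul_left h5 hτ0
  · -- the second term
    intro h12 hSt
    have hs1 : 1 ≤ √(T.card : ℝ) := Real.one_le_sqrt.2 (by linarith)
    have hA : S + ((T.card : ℝ) - 11 / 3 * √(T.card : ℝ) - 9 / 4) / 2 ≤ √(T.card : ℝ) * e := by
      obtain ⟨j, hj, hjT, hsum⟩ := Pool.Agent.TH142.NU.on_T hP T
      have h1 := Pool.Agent.TH885.NW.exp_degree2 (n := T.card) hT (fun a => u (j a)) (k := T.card)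
        (by omega) (by linarith) (by
          rw [hsum fun i => (u i : ℝ), ← hSd, ← pow_two]
          exact hSt) (fun a => P (j a)) hj e G hG.ne_zero hGe (fun a => hm (j a))
      rw [hsum fun i => (u i : ℝ), ← hSd] at h1
      linarith
    have hB : S + (2 - 6 / √(T.card : ℝ)) / 2 ≤ √(T.card : ℝ) * e := by
      by_contra hcon
      push Not at hcon
      have he0 : 0 < e := by
        rcases Nat.eq_zero_or_pos e with h0 | h0
        · exfalso
          have hue : ∀ i, u i ≤ e := fun i => van_le hG.ne_zero hGe (hGo i).1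
          have : ∑ i ∈ T, u i = 0 := Finset.sum_eq_zero fun i _ => by
            have := hue i
            omega
          omega
        · exact h0
      let g : Fin T.card ↪o Fin s := T.orderEmbOfFin rfl
      have hsum : ∑ i ∈ T, u i = ∑ j : Fin T.card, u (g j) := by
        have h1 := Finset.sum_map Finset.univ g.toEmbedding u
        have h2 : Finset.map g.toEmbedding Finset.univ = T := Finset.map_orderEmbOfFin_univ T rfl
        rw [h2] at h1
        exact h1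
      have hV : Pool.Agent.TH718.UG.Van (fun j => u (g j)) e := by
        refine Pool.Agent.TH718.UG.Van_of_Emp (Pool.Agent.TH718.UG.Emp_gap' hT (Fintype.card_fin _) he0 (Or.inl h12) ?_)
        rw [← hsum, ← hSn]
        have e1 : 6 / √(T.card : ℝ) = 2 * (3 / √(T.card : ℝ)) := by ring
        rw [e1] at hcon
        linarith
      obtain ⟨F, hF, hF'⟩ := Pool.Agent.TH718.UG.Van_sub (w := u) g g.injective hV
      obtain ⟨h1, -⟩ := hF' P (fun h0 => hF (hP.eq_zero_of_aeval_eq_zero F h0))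
      have hGf : G ∈ Pool.Agent.H248R5.forms u P e := by
        rw [← vs_eq_forms, mem_VS]
        exact ⟨hGe, fun j => (hGo j).1⟩
      rw [h1] at hGf
      exact hG.ne_zero ((Submodule.mem_bot ℂ).1 hGf)
    rcases max_choice ((T.card : ℝ) - 11 / 3 * √(T.card : ℝ) - 9 / 4) (2 - 6 / √(T.card : ℝ)) with
      h1 | h1
    · unfold gam
      rw [h1]
      exact hA
    · unfold gam
      rw [h1]
      exact hB

/-- The inequality for irreducible curves. -/
theorem nag_irr {s : ℕ} {P : Fin s → Fin 2 → ℂ}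
    (hP : AlgebraicIndependent ℚ (fun ij : Fin s × Fin 2 => P ij.1 ij.2))
    {T : Finset (Fin s)} (hT : 10 ≤ T.card) {v : Fin s → ℝ} (hv : ∑ i ∈ T, v i = 0) {c ρ : ℝ}
    (hρ : ρ ^ 2 = ∑ i, v i ^ 2) (hρ0 : 0 ≤ ρ) (hρr : 4 * (T.card : ℝ) ^ 3 * ρ ≤ 1) (hc0 : 0 ≤ c)
    (hX0 : 0 ≤ c ^ 2 - T.card - ρ ^ 2)
    (hcrit : 3 * T.card * ρ ^ 4 ≤ (c ^ 2 - T.card - ρ ^ 2) ^ 3 ∨
      (12 ≤ T.card ∧ ρ ^ 2 ≤ (c ^ 2 - T.card - ρ ^ 2) * gam T.card))
    {G : MvPolynomial (Fin 3) ℂ} {e : ℕ} {u : Fin s → ℕ} (hG : Irreducible G)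
    (hGe : G.IsHomogeneous e) (hGo : ∀ j, Ord (aff (P j)) (u j) G) :
    ∑ i, ((if i ∈ T then 1 else 0) + v i) * (u i : ℝ) ≤ c * e := by
  classical
  obtain ⟨x, hx⟩ : ∃ x : Fin s → ℝ, x = fun i => (if i ∈ T then 1 else 0) + v i := ⟨_, rfl⟩
  have hxs : ∀ i, ((if i ∈ T then 1 else 0) + v i) = x i := fun i => by rw [hx]
  simp only [hxs]
  by_contra hcon
  push Not at hcon
  obtain ⟨t, ht⟩ : ∃ t : ℝ, t = T.card := ⟨_, rfl⟩
  have ht10 : 10 ≤ t := by rw [ht]; exact_mod_cast hT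
  have ht0 : 0 < t := by linarith
  rw [← ht] at hρr hX0 hcrit
  have hue : ∀ i, u i ≤ e := fun i => van_le hG.ne_zero hGe (hGo i).1
  -- `D ^ 2 ≥ 0`
  have hX2 : ∑ i, x i ^ 2 = t + ρ ^ 2 := by
    have e1 : ∀ i, x i ^ 2 = (if i ∈ T then 1 else 0) + 2 * (if i ∈ T then v i else 0) +
        v i ^ 2 := by
      intro i
      rw [hx]
      by_cases hi : i ∈ T
      · simp only [if_pos hi]
        ring
      · simp only [if_neg hi]
        ring
    rw [Finset.sum_congr rfl fun i _ => e1 i, Finset.sum_add_distrib, Finset.sum_add_distrib,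
      ← Finset.mul_sum, Finset.sum_ite_mem, Finset.sum_ite_mem, Finset.univ_inter, hv, ← hρ, ht]
    simp
  obtain ⟨U2, hU2⟩ : ∃ U2 : ℝ, U2 = ∑ i, (u i : ℝ) ^ 2 := ⟨_, rfl⟩
  obtain ⟨p, hp⟩ : ∃ p, p = ∑ i, x i * (u i : ℝ) := ⟨_, rfl⟩
  rw [← hp] at hcon
  have he0 : (0 : ℝ) ≤ e := Nat.cast_nonneg e
  have hce0 : 0 ≤ c * e := mul_nonneg hc0 he0
  have hcs : p ^ 2 ≤ (t + ρ ^ 2) * U2 := by
    rw [hp, ← hX2, hU2]
    exact Finset.sum_mul_sq_le_sq_mul_sq _ _ _
  have hp2 : (c * e) ^ 2 < p ^ 2 := pow_lt_pow_left₀ hcon hce0 two_ne_zero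
  have hU20 : 0 ≤ U2 := by rw [hU2]; exact Finset.sum_nonneg fun i _ => sq_nonneg _
  have hneg : (e : ℝ) ^ 2 < U2 := by
    have h1 : (t + ρ ^ 2) * U2 ≤ c ^ 2 * U2 := mul_le_mul_of_nonneg_right (by linarith) hU20
    have h2 : c ^ 2 * (e : ℝ) ^ 2 < c ^ 2 * U2 := by
      have e1 : (c * e) ^ 2 = c ^ 2 * (e : ℝ) ^ 2 := by ring
      linarith
    exact lt_of_mul_lt_mul_left h2 (sq_nonneg c)
  have hU2n : U2 = ((∑ i, u i ^ 2 : ℕ) : ℝ) := by rw [hU2]; push_cast; rfl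
  have hnegn : e ^ 2 < ∑ i, u i ^ 2 := by
    rw [hU2n] at hneg
    exact_mod_cast hneg
  obtain ⟨k, hk⟩ : ∃ k, ∑ i, u i ^ 2 = e ^ 2 + k := ⟨∑ i, u i ^ 2 - e ^ 2, by omega⟩
  have hkR : U2 = (e : ℝ) ^ 2 + k := by
    rw [hU2n, hk]
    push_cast
    ring
  have hk0 : (0 : ℝ) ≤ k := Nat.cast_nonneg k
  -- the comparison with the Nagata class
  obtain ⟨S, hS⟩ : ∃ S : ℝ, S = ∑ i ∈ T, (u i : ℝ) := ⟨_, rfl⟩
  obtain ⟨Q, hQ⟩ : ∃ Q, Q = vari T u := ⟨_, rfl⟩
  have hQ' : Q = U2 - S ^ 2 / t := by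
    rw [hQ, hU2, hS, ht]
    rfl
  have hpS : p = S + ∑ i, v i * ((u i : ℝ) - if i ∈ T then S / t else 0) := by
    have e1 : ∀ i, x i * (u i : ℝ) = (if i ∈ T then (u i : ℝ) else 0) +
        (v i * ((u i : ℝ) - if i ∈ T then S / t else 0) +
          (if i ∈ T then v i else 0) * (S / t)) := by
      intro i
      rw [hx]
      by_cases hi : i ∈ T
      · simp only [if_pos hi]
        ring
      · simp only [if_neg hi]
        ring
    rw [hp, Finset.sum_congr rfl fun i _ => e1 i, Finset.sum_add_distrib, Finset.sum_add_distrib,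
      ← Finset.sum_mul, Finset.sum_ite_mem, Finset.sum_ite_mem, Finset.univ_inter, hv, ← hS]
    ring
  have hQs : ∑ i, ((u i : ℝ) - if i ∈ T then S / t else 0) ^ 2 = Q := by
    have e1 : ∀ i, ((u i : ℝ) - if i ∈ T then S / t else 0) ^ 2 = (u i : ℝ) ^ 2 -
        2 * (S / t) * (if i ∈ T then (u i : ℝ) else 0) + (if i ∈ T then (S / t) ^ 2 else 0) := by
      intro i
      by_cases hi : i ∈ T
      · simp only [if_pos hi]
        ring
      · simp only [if_neg hi]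
        ring
    rw [Finset.sum_congr rfl fun i _ => e1 i, Finset.sum_add_distrib, Finset.sum_sub_distrib,
      ← Finset.mul_sum, Finset.sum_ite_mem, Finset.sum_ite_mem, Finset.univ_inter, ← hS, ← hU2,
      Finset.sum_const, nsmul_eq_mul, ← ht, hQ']
    field_simp
    ring
  have hQ0 : 0 ≤ Q := by rw [← hQs]; exact Finset.sum_nonneg fun i _ => sq_nonneg _
  obtain ⟨q, hq⟩ : ∃ q, q = √Q := ⟨_, rfl⟩
  have hq0 : 0 ≤ q := by rw [hq]; exact Real.sqrt_nonneg _
  have hq2 : q ^ 2 = Q := by rw [hq]; exact Real.sq_sqrt hQ0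
  have hpq : p ≤ S + ρ * q := by
    have h1 := Finset.sum_mul_sq_le_sq_mul_sq Finset.univ v
      fun i => (u i : ℝ) - if i ∈ T then S / t else 0
    rw [hQs, ← hρ, ← hq2, ← mul_pow] at h1
    have h2 := le_of_sq (mul_nonneg hρ0 hq0) h1
    linarith
  have hgoal : ¬ S + ρ * q ≤ c * e := fun h => absurd (hpq.trans h) (not_le.2 hcon)
  have hρ1 : ρ ≤ 1 / 4000 := by
    have ht3 : 1000 ≤ t ^ 3 := by nlinarith [mul_pos ht0 ht0]
    have h1 : 4000 * ρ ≤ 4 * t ^ 3 * ρ := mul_le_mul_of_nonneg_right (by linarith) hρ0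
    linarith
  have hS0 : 0 ≤ S := by rw [hS]; exact Finset.sum_nonneg fun i _ => Nat.cast_nonneg _
  rcases Nat.eq_zero_or_pos (∑ i ∈ T, u i) with hSz | hSp
  · -- no multiplicity on `T`
    have hSz' : S = 0 := by
      rw [hS]
      exact_mod_cast hSz
    apply hgoal
    rw [hSz', zero_add]
    refine le_of_sq hce0 ?_
    have hkx : (k : ℝ) ≤ (e : ℝ) ^ 2 := by
      obtain ⟨i, hi⟩ : ∃ i, 1 ≤ u i := by
        by_contra h0
        push Not at h0
        have : ∑ i, u i ^ 2 = 0 := Finset.sum_eq_zero fun i _ => by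
          have h1 : u i = 0 := by
            have := h0 i
            omega
          rw [h1]
          norm_num
        omega
      have h1 := Pool.Agent.Y939.XN.xu hP hG hGe hGo (k := i) hi
      have h2 := hue i
      have h3 : k ≤ e ^ 2 := by nlinarith
      exact_mod_cast h3
    have h1 : q ^ 2 ≤ 2 * (e : ℝ) ^ 2 := by
      rw [hq2, hQ', hSz', hkR]
      norm_num
      linarith
    have h2 : ρ ^ 2 ≤ 1 ^ 2 := pow_le_pow_left₀ hρ0 (by linarith) 2
    have h3 : ρ ^ 2 * q ^ 2 ≤ 1 ^ 2 * (2 * (e : ℝ) ^ 2) := mul_le_mul h2 h1 (sq_nonneg _) (by norm_num)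
    have h4 : 10 * (e : ℝ) ^ 2 ≤ c ^ 2 * (e : ℝ) ^ 2 := by
      refine mul_le_mul_of_nonneg_right ?_ (sq_nonneg _)
      have := sq_nonneg ρ
      linarith
    rw [mul_pow, mul_pow]
    have := sq_nonneg (e : ℝ)
    linarith
  · obtain ⟨n1, n2, n3, n4⟩ := neg_data hP hT hG hGe hGo hk hSp
    rw [← hS, ← ht] at n1 n3 n4
    rw [← hS] at n2
    rw [← hQ] at n3
    obtain ⟨δ, hδ⟩ : ∃ δ, δ = t * (e : ℝ) ^ 2 - S ^ 2 := ⟨_, rfl⟩
    rw [← hδ] at n1
    have hδe : t * (e : ℝ) ^ 2 = S ^ 2 + δ := by rw [hδ]; ring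
    have hqk : q ^ 2 = k + δ / t := by
      rw [hq2, hQ', hkR, hδ]
      field_simp
      ring
    have hct : t ≤ c ^ 2 := by
      have := sq_nonneg ρ
      linarith
    rcases le_or_gt S (t ^ 2) with hSt | hSt
    · exact hgoal (numSmall ht10 hS0 hSt n2 n1 hδe hqk hq0 hρ0 hρr hct hce0)
    · rcases hcrit with hX3 | ⟨h18, hX18⟩
      · rcases n3 with n3 | ⟨n31, n32⟩
        · exact hgoal (numLarge ht10 hSt.le n3 n1 hδe hqk hq0 hρ0 hρr rfl hX3 hX0 hce0)
        · refine hgoal (numZero ht10 hSt.le hk0 n2 n1 hδe hqk hq0 ?_ ?_ hρ0 hρr (by linarith) hce0)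
          · rw [hq2]
            have h1 : t ^ 2 * (k : ℝ) ≤ S * k := mul_le_mul_of_nonneg_right hSt.le hk0
            have h2 : t * (t * k) ≤ t * Q := by
              have e1 : t * (t * (k : ℝ)) = t ^ 2 * k := by ring
              linarith
            exact le_of_mul_le_mul_left h2 ht0
          · rw [hq2]
            exact n31
      · have ht12 : (12 : ℝ) ≤ t := by rw [ht]; exact_mod_cast h18
        obtain ⟨γ, hγ⟩ : ∃ γ, γ = gam t := ⟨_, rfl⟩
        obtain ⟨hγ0, hγ1⟩ := gam_le ht12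
        have n4' := n4 h18 hSt.le
        rw [← hγ] at hX18 hγ0 hγ1 n4'
        have hs2 : √t * √t = t := Real.mul_self_sqrt ht0.le
        have hs0 : 0 ≤ √t := Real.sqrt_nonneg _
        have h1 : S + γ / 2 ≤ √t * e := n4'
        have h2 : (S + γ / 2) ^ 2 ≤ (√t * e) ^ 2 := pow_le_pow_left₀ (by positivity) h1 2
        have h3 : (√t * e) ^ 2 = t * (e : ℝ) ^ 2 := by
          rw [mul_pow, pow_two (√t), hs2]
        have h4 : S * γ ≤ δ := by
          rw [h3, hδe] at h2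
          have := sq_nonneg γ
          nlinarith
        refine hgoal (numCS (k := k) (γ := γ) ht0 hγ0 ?_ ?_ ?_ hce0)
        · rcases n3 with n3 | ⟨-, n32⟩
          · -- all multiplicities on `T` are positive
            rw [hqk]
            have h5 : k * γ ≤ δ / t := by
              rw [le_div_iff₀ ht0]
              have h6 : (k * t) * γ ≤ S * γ := mul_le_mul_of_nonneg_right n3 hγ0.le
              have e1 : k * γ * t = (k * t) * γ := by ring
              linarith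
            linarith
          · rw [hq2]
            have h1 : t ^ 2 * (k : ℝ) ≤ S * k := mul_le_mul_of_nonneg_right hSt.le hk0
            have h2 : t * (t * k) ≤ t * Q := by
              have e1 : t * (t * (k : ℝ)) = t ^ 2 * k := by ring
              linarith
            have h3 : t * k ≤ Q := le_of_mul_le_mul_left h2 ht0
            have h4 : k * (1 + γ) ≤ k * t :=
              mul_le_mul_of_nonneg_left (by linarith) hk0
            linarith
        · rw [hqk]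
          have e1 : t * (k + δ / t - k) = δ := by field_simp; ring
          rw [e1]
          exact hδe
        · have e1 : c ^ 2 * γ = (c ^ 2 - t - ρ ^ 2) * γ + (t + ρ ^ 2) * γ := by ring
          rw [e1]
          linarith

/-- The dual inequality: the self-intersection is at least `- vari / (1 + gam t)`. -/
theorem self_ge {s : ℕ} {P : Fin s → Fin 2 → ℂ}
    (hP : AlgebraicIndependent ℚ (fun ij : Fin s × Fin 2 => P ij.1 ij.2))
    {T : Finset (Fin s)} (hT : 12 ≤ T.card)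
    {G : MvPolynomial (Fin 3) ℂ} {e : ℕ} {u : Fin s → ℕ} (hG : Irreducible G)
    (hGe : G.IsHomogeneous e) (hGo : ∀ j, Ord (aff (P j)) (u j) G)
    (hS : (T.card : ℝ) ^ 2 ≤ ∑ i ∈ T, (u i : ℝ)) :
    (∑ i, (u i : ℝ) ^ 2 - (e : ℝ) ^ 2) * (1 + gam T.card) ≤ vari T u := by
  classical
  obtain ⟨t, ht⟩ : ∃ t : ℝ, t = T.card := ⟨_, rfl⟩
  have ht12 : (12 : ℝ) ≤ t := by rw [ht]; exact_mod_cast hT
  have ht0 : 0 < t := by linarith
  obtain ⟨S, hSd⟩ : ∃ S : ℝ, S = ∑ i ∈ T, (u i : ℝ) := ⟨_, rfl⟩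
  rw [← ht, ← hSd] at hS
  rw [← ht]
  have hS0 : 0 < S := lt_of_lt_of_le (by positivity) hS
  have hSp : 0 < ∑ i ∈ T, u i := by
    rcases Nat.eq_zero_or_pos (∑ i ∈ T, u i) with h0 | h0
    · exfalso
      have : S = 0 := by
        rw [hSd]
        exact_mod_cast h0
      linarith
    · exact h0
  obtain ⟨γ, hγ⟩ : ∃ γ, γ = gam t := ⟨_, rfl⟩
  obtain ⟨hγ0, hγ1⟩ := gam_le ht12
  rw [← hγ] at hγ0 hγ1 ⊢
  have hs2 : √t * √t = t := Real.mul_self_sqrt ht0.le
  have hs0 : 0 ≤ √t := Real.sqrt_nonneg _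
  have hQ0 : 0 ≤ vari T u := by
    have h1 := Pool.Agent.TH142.NU.var_eq T u (by omega)
    have h2 : 0 ≤ ∑ i ∈ T, ((u i : ℝ) - (∑ i ∈ T, (u i : ℝ)) / T.card) ^ 2 :=
      Finset.sum_nonneg fun i _ => sq_nonneg _
    have h3 : ∑ i ∈ T, (u i : ℝ) ^ 2 ≤ ∑ i, (u i : ℝ) ^ 2 :=
      Finset.sum_le_sum_of_subset_of_nonneg (Finset.subset_univ _) fun i _ _ => sq_nonneg _
    unfold vari
    linarith
  rcases le_or_gt (∑ i, (u i : ℝ) ^ 2) ((e : ℝ) ^ 2) with hneg | hneg
  · have h1 : (∑ i, (u i : ℝ) ^ 2 - (e : ℝ) ^ 2) * (1 + γ) ≤ 0 :=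
      mul_nonpos_of_nonpos_of_nonneg (by linarith) (by linarith)
    linarith
  · have hnegn : e ^ 2 < ∑ i, u i ^ 2 := by
      have h1 : ((e ^ 2 : ℕ) : ℝ) < ((∑ i, u i ^ 2 : ℕ) : ℝ) := by
        push_cast
        exact hneg
      exact_mod_cast h1
    obtain ⟨k, hk⟩ : ∃ k, ∑ i, u i ^ 2 = e ^ 2 + k := ⟨∑ i, u i ^ 2 - e ^ 2, by omega⟩
    have hkR : ∑ i, (u i : ℝ) ^ 2 = (e : ℝ) ^ 2 + k := by
      have : ((∑ i, u i ^ 2 : ℕ) : ℝ) = ((e ^ 2 + k : ℕ) : ℝ) := by rw [hk]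
      push_cast at this
      exact this
    have hk0 : (0 : ℝ) ≤ k := Nat.cast_nonneg k
    obtain ⟨n1, n2, n3, n4⟩ := neg_data hP (by omega) hG hGe hGo hk hSp
    rw [← hSd, ← ht] at n1 n3 n4
    rw [← hSd] at n2
    obtain ⟨Q, hQ⟩ : ∃ Q, Q = vari T u := ⟨_, rfl⟩
    rw [← hQ] at n3 ⊢
    have hQ' : t * Q = t * ((e : ℝ) ^ 2 + k) - S ^ 2 := by
      rw [hQ]
      unfold vari
      rw [hkR, ← hSd, ← ht]
      field_simp
    have n4' := n4 hT hS
    rw [← hγ] at n4'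
    have h1 : S + γ / 2 ≤ √t * e := n4'
    have h2 : (S + γ / 2) ^ 2 ≤ (√t * e) ^ 2 := pow_le_pow_left₀ (by positivity) h1 2
    have h3 : (√t * e) ^ 2 = t * (e : ℝ) ^ 2 := by
      rw [mul_pow, pow_two (√t), hs2]
    have h4 : S * γ ≤ t * (e : ℝ) ^ 2 - S ^ 2 := by
      rw [h3] at h2
      have := sq_nonneg γ
      nlinarith
    rw [hkR, add_sub_cancel_left]
    rcases n3 with n3 | ⟨-, n32⟩
    · have h6 : (k * t) * γ ≤ S * γ := mul_le_mul_of_nonneg_right n3 hγ0.le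
      have h7 : t * (k * (1 + γ)) ≤ t * Q := by
        rw [hQ']
        nlinarith
      exact le_of_mul_le_mul_left h7 ht0
    · have h1 : t ^ 2 * (k : ℝ) ≤ S * k := mul_le_mul_of_nonneg_right hS hk0
      have h2 : t * (t * k) ≤ t * Q := by
        have e1 : t * (t * (k : ℝ)) = t ^ 2 * k := by ring
        linarith
      have h3 : t * k ≤ Q := le_of_mul_le_mul_left h2 ht0
      have h4 : k * (1 + γ) ≤ k * t :=
        mul_le_mul_of_nonneg_left (by linarith) hk0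
      linarith

end Pool.Agent.K4H62.CN
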